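import Pool.Agent.R429.OS.Mean

/-! Splitting the class 1 modulo `q` into reduced classes modulo a multiple `m` of `q`. -/

set_option autoImplicit false

namespace Pool.Agent.R429.OS

open MeasureTheory Filter Topology Set Complex DirichletCharacter
open ArithmeticFunction.vonMangoldt (residueClass)

/-- `ψ(x; m, b)`: the sum of `Λ(n)` over `n ≤ x` with `n ≡ b mod m` -/
noncomputable def psi (x : ℝ) (m b : ℕ) : ℝ :=
  ∑ n ∈ (Finset.Icc 1 ⌊x⌋₊).filter (fun n => n ≡ b [MOD m]), ArithmeticFunction.vonMangoldt n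

/-- the reduced residues `b < m` with `b ≡ 1 mod q` -/
def classes (q m : ℕ) : Finset ℕ := (Finset.range m).filter (fun b => b.Coprime m ∧ b ≡ 1 [MOD q])

theorem psi_nonneg (x : ℝ) (m b : ℕ) : 0 ≤ psi x m b :=
  Finset.sum_nonneg fun _ _ => ArithmeticFunction.vonMangoldt_nonneg

theorem psi_meas (m b : ℕ) : Measurable fun x => psi x m b := by
  have h1 : Measurable fun N : ℕ => ∑ n ∈ (Finset.Icc 1 N).filter (fun n => n ≡ b [MOD m]),
      ArithmeticFunction.vonMangoldt n := measurable_from_top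
  exact h1.comp Nat.measurable_floor

theorem psi_eq (q : ℕ) (x : ℝ) : psi x q 1 = psi1 q x := by
  unfold psi psi1
  rw [Finset.sum_filter]
  refine Finset.sum_congr rfl fun n _ => ?_
  rw [residueClass, Set.indicator_apply]
  have h1 : n ≡ 1 [MOD q] ↔ n ∈ {n : ℕ | (n : ZMod q) = 1} := by
    rw [← ZMod.natCast_eq_natCast_iff]
    simp
  simp only [h1]

theorem card_classes {q m : ℕ} (hm : 0 < m) (h : q ∣ m) : (classes q m).card * q.totient = m.totient := by
  have hq : 0 < q := Nat.pos_of_dvd_of_pos h hm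
  have : NeZero m := ⟨hm.ne'⟩
  have : NeZero q := ⟨hq.ne'⟩
  have h1 : (classes q m).card = Nat.card (ZMod.unitsMap h).ker := by
    rw [Nat.card_eq_fintype_card, ← Fintype.card_coe]
    refine (Fintype.card_congr (Equiv.ofBijective (fun u : (ZMod.unitsMap h).ker =>
      (⟨(u.1 : ZMod m).val, ?_⟩ : {b // b ∈ classes q m})) ⟨?_, ?_⟩)).symm
    · have h2 := ZMod.val_coe_unit_coprime u.1
      have h3 : ZMod.unitsMap h u.1 = 1 := u.2
      have h4 := congrArg (fun v : (ZMod q)ˣ => (v : ZMod q)) h3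
      simp only [ZMod.unitsMap_def, Units.coe_map, Units.val_one, MonoidHom.coe_coe] at h4
      unfold classes
      rw [Finset.mem_filter, Finset.mem_range]
      refine ⟨ZMod.val_lt _, h2, ?_⟩
      rw [← ZMod.natCast_eq_natCast_iff, Nat.cast_one, ← h4, ZMod.castHom_apply, ZMod.natCast_val]
    · intro u v huv
      have h2 : (u.1 : ZMod m).val = (v.1 : ZMod m).val := congrArg Subtype.val huv
      exact Subtype.ext (Units.ext (ZMod.val_injective m h2))
    · rintro ⟨b, hb⟩
      unfold classes at hb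
      rw [Finset.mem_filter, Finset.mem_range] at hb
      obtain ⟨hb1, hb2, hb3⟩ := hb
      refine ⟨⟨ZMod.unitOfCoprime b hb2, ?_⟩, ?_⟩
      · rw [MonoidHom.mem_ker]
        ext
        rw [ZMod.unitsMap_def, Units.coe_map, Units.val_one, MonoidHom.coe_coe, ZMod.coe_unitOfCoprime,
          map_natCast]
        rw [← ZMod.natCast_eq_natCast_iff, Nat.cast_one] at hb3
        exact hb3
      · refine Subtype.ext ?_
        show ((ZMod.unitOfCoprime b hb2 : (ZMod m)ˣ) : ZMod m).val = b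
        rw [ZMod.coe_unitOfCoprime, ZMod.val_natCast_of_lt hb1]
  have h2 := Subgroup.card_eq_card_quotient_mul_card_subgroup (ZMod.unitsMap h).ker
  have h3 : Nat.card ((ZMod m)ˣ ⧸ (ZMod.unitsMap h).ker) = q.totient := by
    rw [Nat.card_congr (QuotientGroup.quotientKerEquivOfSurjective _ (ZMod.unitsMap_surjective h)).toEquiv,
      Nat.card_eq_fintype_card, ZMod.card_units_eq_totient]
  rw [h3, Nat.card_eq_fintype_card, ZMod.card_units_eq_totient] at h2
  rw [h1, h2, mul_comm]

/-- the classes modulo `m` inside the class 1 modulo `q` -/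
theorem sum_psi_le {q m : ℕ} (h : q ∣ m) (x : ℝ) : ∑ b ∈ classes q m, psi x m b ≤ psi x q 1 := by
  unfold psi
  rw [← Finset.sum_biUnion]
  · refine Finset.sum_le_sum_of_subset_of_nonneg ?_ fun _ _ _ => ArithmeticFunction.vonMangoldt_nonneg
    intro n hn
    rw [Finset.mem_biUnion] at hn
    obtain ⟨b, hb, hn⟩ := hn
    rw [Finset.mem_filter] at hn ⊢
    unfold classes at hb
    rw [Finset.mem_filter] at hb
    exact ⟨hn.1, (hn.2.of_dvd h).trans hb.2.2⟩
  · intro b hb c hc hbc
    rw [Function.onFun, Finset.disjoint_left]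
    intro n h1 h2
    rw [Finset.mem_filter] at h1 h2
    apply hbc
    have hb' : b < m := by
      have := (Finset.mem_filter.1 (Finset.mem_coe.1 hb)).1
      exact Finset.mem_range.1 this
    have hc' : c < m := by
      have := (Finset.mem_filter.1 (Finset.mem_coe.1 hc)).1
      exact Finset.mem_range.1 this
    have h3 : b ≡ c [MOD m] := h1.2.symm.trans h2.2
    exact Nat.ModEq.eq_of_lt_of_lt h3 hb' hc'

/-- the negative parts of the errors -/
noncomputable def neg (x : ℝ) (m b : ℕ) : ℝ := max (x / m.totient - psi x m b) 0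

theorem neg_meas (m b : ℕ) : Measurable fun x => neg x m b :=
  ((by fun_prop : Measurable fun x : ℝ => x / (m.totient : ℝ)).sub (psi_meas m b)).max measurable_const

theorem neg_nonneg (x : ℝ) (m b : ℕ) : 0 ≤ neg x m b := le_max_right _ _

theorem neg_le {x : ℝ} (hx : 0 ≤ x) (m b : ℕ) : neg x m b ≤ x := by
  refine max_le ?_ hx
  have h1 := psi_nonneg x m b
  have h2 : x / m.totient ≤ x := by
    rcases Nat.eq_zero_or_pos m.totient with h | h
    · rw [h]; simpa using hx
    · exact div_le_self hx (by exact_mod_cast h)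
  linarith

theorem neg1_le_sum {q m : ℕ} (hm : 0 < m) (h : q ∣ m) (x : ℝ) :
    neg1 q x ≤ ∑ b ∈ classes q m, neg x m b := by
  have hq : 0 < q := Nat.pos_of_dvd_of_pos h hm
  have h0 : 0 ≤ ∑ b ∈ classes q m, neg x m b := Finset.sum_nonneg fun b _ => neg_nonneg x m b
  refine max_le ?_ h0
  have h1 : ∑ b ∈ classes q m, (x / m.totient - psi x m b) ≤ ∑ b ∈ classes q m, neg x m b :=
    Finset.sum_le_sum fun b _ => le_max_left _ _
  have h2 : ∑ b ∈ classes q m, (x / m.totient - psi x m b) =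
      x / q.totient - ∑ b ∈ classes q m, psi x m b := by
    rw [Finset.sum_sub_distrib, Finset.sum_const, nsmul_eq_mul]
    congr 1
    have h3 := card_classes hm h
    have h4 : ((classes q m).card : ℝ) * q.totient = m.totient := by exact_mod_cast h3
    have h5 : (0:ℝ) < m.totient := by exact_mod_cast Nat.totient_pos.2 hm
    have h6 : (0:ℝ) < q.totient := by exact_mod_cast Nat.totient_pos.2 hq
    have h7 : (0:ℝ) < (classes q m).card := by
      by_contra hcon
      have : ((classes q m).card : ℝ) = 0 := le_antisymm (not_lt.1 hcon) (Nat.cast_nonneg _)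
      rw [this, zero_mul] at h4
      linarith
    rw [← h4]
    field_simp
  have h3 := sum_psi_le h x
  rw [psi_eq] at h3
  linarith

theorem neg_int (m b : ℕ) {X Y : ℝ} (hX : 0 ≤ X) (hXY : X ≤ Y) :
    IntervalIntegrable (fun x => neg x m b) volume X Y := by
  rw [intervalIntegrable_iff_integrableOn_Ioc_of_le hXY]
  refine Measure.integrableOn_of_bounded (M := Y) (by simp) (neg_meas m b).aestronglyMeasurable ?_
  refine (ae_restrict_iff' measurableSet_Ioc).2 (Eventually.of_forall fun x hx => ?_)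
  rw [Real.norm_of_nonneg (neg_nonneg x m b)]
  exact (neg_le (hX.trans hx.1.le) m b).trans hx.2

theorem sum_int (q m : ℕ) {X Y : ℝ} (hX : 0 ≤ X) (hXY : X ≤ Y) :
    IntervalIntegrable (fun x => ∑ b ∈ classes q m, neg x m b) volume X Y := by
  have e : (fun x => ∑ b ∈ classes q m, neg x m b) = ∑ b ∈ classes q m, fun x => neg x m b := by
    funext x; simp
  rw [e]
  exact IntervalIntegrable.sum _ fun b _ => neg_int m b hX hXY

theorem neg1_eq (q : ℕ) (x : ℝ) : neg1 q x = neg x q 1 := by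
  unfold neg1 neg
  rw [psi_eq]

/-- no zeros of the L-functions modulo `q` with real part greater than `y` -/
def NoZeros (q : ℕ) [NeZero q] (y : ℝ) : Prop :=
  ∀ χ : DirichletCharacter ℂ q, ∀ s : ℂ, y < s.re → (s ≠ 1 ∨ χ ≠ 1) → DirichletCharacter.LFunction χ s ≠ 0

variable (q : ℕ) [NeZero q]

/-- (1) one class, one side, in mean -/
theorem part1 {y : ℝ} (hy : 0 < y) (hy1 : y ≤ 1)
    (h : ∀ ε : ℝ, 0 < ε → ∀ᶠ X : ℝ in atTop, ∫ x in X..(2 * X), neg x q 1 ≤ X ^ (1 + y + ε)) :
    NoZeros q y := by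
  intro χ s hs h1
  refine one_sided_mean q hy hy1 (fun ε hε => ?_) hs h1
  simp only [neg1_eq]
  exact h ε hε

/-- (2) classes modulo a multiple of `q`, one modulus for each dyadic interval -/
theorem part2 {y : ℝ} (hy : 0 < y) (hy1 : y ≤ 1)
    (h : ∀ ε : ℝ, 0 < ε → ∀ᶠ X : ℝ in atTop, ∃ m : ℕ, 0 < m ∧ q ∣ m ∧
      ∫ x in X..(2 * X), ∑ b ∈ classes q m, neg x m b ≤ X ^ (1 + y + ε)) :
    NoZeros q y := by
  refine part1 q hy hy1 fun ε hε => ?_
  filter_upwards [h ε hε, eventually_ge_atTop 1] with X hX hX1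
  obtain ⟨m, hm, hqm, hle⟩ := hX
  refine le_trans (intervalIntegral.integral_mono_on (by linarith)
    (neg_int q 1 (by linarith) (by linarith)) ?_ fun x hx => ?_) hle
  · exact sum_int q m (by linarith) (by linarith)
  · rw [← neg1_eq]
    exact neg1_le_sum hm hqm x

/-- (3) the lower half of Montgomery's bound -/
theorem part3 {y : ℝ} (hy : 1 / 2 ≤ y) (hy1 : y ≤ 1)
    (h : ∀ ε : ℝ, 0 < ε → ∀ᶠ X : ℝ in atTop, ∃ m : ℕ, 0 < m ∧ q ∣ m ∧ (m : ℝ) ≤ X ^ (2 * y - 1 + ε) ∧
      ∀ x ∈ Set.Icc X (2 * X), ∀ b ∈ classes q m, x / m.totient - x ^ (1 / 2 + ε) / √m ≤ psi x m b) :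
    NoZeros q y := by
  refine part2 q (by linarith) hy1 fun ε hε => ?_
  have h4 : ∀ᶠ X : ℝ in atTop, (2:ℝ) ^ (1 / 2 + ε / 4) ≤ X ^ (ε / 4) :=
    (tendsto_rpow_atTop (by linarith : 0 < ε / 4)).eventually_ge_atTop _
  filter_upwards [h (ε / 4) (by linarith), eventually_ge_atTop 1, h4] with X hX hX1 hX4
  obtain ⟨m, hm, hqm, hmX, hb⟩ := hX
  have hX0 : 0 < X := by linarith
  have hm0 : (0:ℝ) < m := by exact_mod_cast hm
  have hsm : 0 < √(m:ℝ) := Real.sqrt_pos.2 hm0
  refine ⟨m, hm, hqm, ?_⟩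
  set E : ℝ := √(m:ℝ) * (2 * X) ^ (1 / 2 + ε / 4) with hE
  have h1 : ∀ x ∈ Set.Icc X (2 * X), ∑ b ∈ classes q m, neg x m b ≤ E := by
    intro x hx
    have hx0 : 0 < x := lt_of_lt_of_le hX0 hx.1
    have h2 : ∀ b ∈ classes q m, neg x m b ≤ (2 * X) ^ (1 / 2 + ε / 4) / √m := by
      intro b hb1
      have h3 := hb x hx b hb1
      have h5 : x ^ (1 / 2 + ε / 4) / √m ≤ (2 * X) ^ (1 / 2 + ε / 4) / √m := by
        refine div_le_div_of_nonneg_right ?_ hsm.le
        exact Real.rpow_le_rpow hx0.le hx.2 (by linarith)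
      refine max_le ?_ (by positivity)
      linarith
    have h6 : (classes q m).card ≤ m := by
      unfold classes
      exact (Finset.card_filter_le _ _).trans (by simp)
    calc ∑ b ∈ classes q m, neg x m b ≤ ∑ b ∈ classes q m, (2 * X) ^ (1 / 2 + ε / 4) / √m :=
          Finset.sum_le_sum h2
      _ = (classes q m).card * ((2 * X) ^ (1 / 2 + ε / 4) / √m) := by
          rw [Finset.sum_const, nsmul_eq_mul]
      _ ≤ m * ((2 * X) ^ (1 / 2 + ε / 4) / √m) := by
          refine mul_le_mul_of_nonneg_right ?_ (by positivity)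
          exact_mod_cast h6
      _ = E := by
          rw [hE]
          have : (m:ℝ) = √(m:ℝ) * √(m:ℝ) := (Real.mul_self_sqrt hm0.le).symm
          field_simp
          rw [Real.sq_sqrt hm0.le]
  have h2 : ∫ x in X..(2 * X), ∑ b ∈ classes q m, neg x m b ≤ ∫ x in X..(2 * X), E := by
    refine intervalIntegral.integral_mono_on (by linarith) ?_ (by simp) h1
    exact sum_int q m (by linarith) (by linarith)
  refine h2.trans ?_
  rw [intervalIntegral.integral_const, smul_eq_mul]
  have h3 : √(m:ℝ) ≤ X ^ ((2 * y - 1 + ε / 4) / 2) := by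
    rw [Real.sqrt_eq_rpow, show (2 * y - 1 + ε / 4) / 2 = (2 * y - 1 + ε / 4) * (1 / 2) by ring,
      Real.rpow_mul hX0.le]
    exact Real.rpow_le_rpow hm0.le hmX (by norm_num)
  have h5 : (2 * X) ^ (1 / 2 + ε / 4) ≤ X ^ (ε / 4) * X ^ (1 / 2 + ε / 4) := by
    rw [Real.mul_rpow (by norm_num) hX0.le]
    exact mul_le_mul_of_nonneg_right hX4 (Real.rpow_nonneg hX0.le _)
  calc (2 * X - X) * E ≤ X * (X ^ ((2 * y - 1 + ε / 4) / 2) * (X ^ (ε / 4) * X ^ (1 / 2 + ε / 4))) := by
        rw [hE, show 2 * X - X = X by ring]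
        gcongr
    _ = X ^ (1 + y + 5 * ε / 8) := by
        rw [← Real.rpow_add hX0, ← Real.rpow_add hX0]
        nth_rewrite 1 [← Real.rpow_one X]
        rw [← Real.rpow_add hX0]
        congr 1; ring
    _ ≤ X ^ (1 + y + ε) := Real.rpow_le_rpow_of_exponent_le hX1 (by linarith)

end Pool.Agent.R429.OS
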