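import Pool.Agent.R429.OS.Gd
import Pool.Agent.W190.Q306.A2

/-! Primes in residue classes from a zero-free half plane. -/

set_option autoImplicit false

namespace Pool.Agent.R429.OS

open MeasureTheory Filter Topology Set
open ArithmeticFunction.vonMangoldt (residueClass)
open Pool.Agent.H295R2
open Pool.Agent.W190.Q306 (PG perron_gen)

variable (q : ℕ) [NeZero q]

/-- the Chebyshev function of a class -/
noncomputable def psia (a : ZMod q) (x : ℝ) : ℝ := ∑ m ∈ Finset.Icc 1 ⌊x⌋₊, residueClass a m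

theorem sum_ac (a : ZMod q) (N : ℕ) : ∑ m ∈ Finset.Icc 1 N, ac q a m = q.totient * psia q a N - N := by
  have e1 : ∑ m ∈ Finset.Icc 1 N, ac q a m = ∑ m ∈ Finset.Icc 1 N, ((q.totient : ℝ) * residueClass a m - 1) := by
    refine Finset.sum_congr rfl fun m hm => ?_
    rw [Finset.mem_Icc] at hm
    unfold ac
    rw [if_neg (by omega)]
  have e2 : psia q a (N:ℝ) = ∑ m ∈ Finset.Icc 1 N, residueClass a m := by
    unfold psia
    rw [Nat.floor_natCast]
  rw [e1, e2, Finset.sum_sub_distrib, Finset.mul_sum]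
  simp

theorem class_bound {θ σ : ℝ} (hθ : 1 / 4 ≤ θ) (hz : NoZeros q θ) (hσ : θ < σ) (hσ2 : σ ≤ 1) :
    ∃ C : ℝ, 0 < C ∧ ∀ a : ZMod q, IsUnit a → ∀ y : ℝ, 1 ≤ y →
      |q.totient * psia q a y - y| ≤ C * y ^ σ := by
  set σ' : ℝ := (θ + σ) / 2 with hσ'
  set ε : ℝ := (σ - σ') / 2 with hε
  have hε0 : 0 < ε := by rw [hε, hσ']; linarith
  have hε1 : 2 * ε ≤ 1 := by rw [hε, hσ']; linarith
  have h1 : θ < σ' := by rw [hσ']; linarith
  have h2 : σ' ≤ 2 := by rw [hσ']; linarith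
  have h2' : σ' ≤ 1 := by rw [hσ']; linarith
  have h14 : 1 / 4 ≤ σ' := by linarith
  have hσ0 : 0 < σ := by linarith
  set φ : ℝ := (q.totient : ℝ) with hφ
  have hφ1 : 1 ≤ φ := by rw [hφ]; exact_mod_cast Nat.totient_pos.2 (NeZero.pos q)
  obtain ⟨Cf, hCf0, hCf⟩ := FF_bound q hθ hz h1 h2' hε0
  obtain ⟨Ch, hCh0, hCh⟩ := FF_bound q hθ hz h1 h2' (ε := 1 / 2) (by norm_num)
  set I0 : ℝ := ∫ ξ : ℝ, (1 + |2 * Real.pi * ξ|) ^ (-(1 + ε)) with hI0
  have hI0' : 0 ≤ I0 := integral_nonneg fun ξ => by positivity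
  refine ⟨5 * 550 * Cf * I0 + 20 * (φ * (20 + 1 / σ)) + 1, by positivity, fun a ha y hy => ?_⟩
  have hy0 : 0 < y := by linarith
  set x : ℝ := Real.log y with hx
  set η : ℝ := 1 / y with hη
  have hη0 : 0 < η := by rw [hη]; positivity
  have hη1 : η ≤ 1 := by rw [hη, div_le_one hy0]; exact hy
  have hexpx : Real.exp x = y := by rw [hx, Real.exp_log hy0]
  have key := perron_gen (x := x) (F := FF q a) (a := fun n => (ac q a n : ℂ)) (by linarith : 0 < σ') h2
    (fun s hs1 _ => FF_diff q a hz (by linarith)) (fun s hs1 hs2 => hCh a s hs1 hs2) (ac_summable q a)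
    (by simp [ac])
    (fun s hs => ac_series q ha (by rw [hs]; norm_num)) step_nice hη0 hη1
  -- the sum is finite
  set k2 := avg η (avg η Pool.Agent.H295R2.step) with hk2
  have hn : Nice k2 1 0 (0 - η - η) := (step_nice.avg hη0).avg hη0
  set N : ℕ := ⌊y * Real.exp (2 * η)⌋₊ with hN
  have hzero : ∀ m ∉ Finset.Icc 1 N, ((ac q a m : ℝ) : ℂ) * k2 (x - Real.log m) = 0 := by
    intro m hm
    rcases Nat.eq_zero_or_pos m with rfl | hm0
    · simp [ac]
    · have hm1 : N < m := by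
        by_contra hcon
        exact hm (Finset.mem_Icc.mpr ⟨hm0, by omega⟩)
      have hm2 : y * Real.exp (2 * η) < m := (Nat.floor_lt (by positivity)).mp hm1
      rw [hn.zero, mul_zero]
      have h3 := Real.log_lt_log (by positivity) hm2
      rw [Real.log_mul hy0.ne' (Real.exp_pos _).ne', Real.log_exp] at h3
      linarith
  have hsum := (hasSum_sum_of_ne_finset_zero hzero).unique key
  have hfloor : ⌊y⌋₊ ≤ N := by
    rw [hN]
    refine Nat.floor_le_floor ?_
    have : 1 ≤ Real.exp (2 * η) := Real.one_le_exp (by positivity)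
    nlinarith
  have hsplit : ∑ m ∈ Finset.Icc 1 N, ((ac q a m : ℝ) : ℂ) * k2 (x - Real.log m) =
      ((φ * psia q a (⌊y⌋₊ : ℝ) - ⌊y⌋₊ : ℝ) : ℂ) +
        ∑ m ∈ Finset.Ioc ⌊y⌋₊ N, ((ac q a m : ℝ) : ℂ) * k2 (x - Real.log m) := by
    have e0 : Finset.Icc 1 N = Finset.Icc 1 ⌊y⌋₊ ∪ Finset.Ioc ⌊y⌋₊ N := by
      ext m
      simp only [Finset.mem_Icc, Finset.mem_union, Finset.mem_Ioc]
      omega
    rw [e0, Finset.sum_union]
    · congr 1
      rw [hφ, ← sum_ac]
      push_cast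
      refine Finset.sum_congr rfl fun m hm => ?_
      rw [Finset.mem_Icc] at hm
      have hm1 : (m:ℝ) ≤ y := (Nat.le_floor_iff hy0.le).mp hm.2
      have hm0 : (0:ℝ) < m := by exact_mod_cast hm.1
      have : 0 ≤ x - Real.log m := by
        have := Real.log_le_log hm0 hm1
        linarith
      rw [hk2, avg2_step_of_nonneg hη0 this, mul_one]
    · rw [Finset.disjoint_left]
      intro m hm1 hm2
      rw [Finset.mem_Icc] at hm1
      rw [Finset.mem_Ioc] at hm2
      omega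
  have hy18 : (N:ℝ) ≤ y + 18 := by
    have h3 : (N:ℝ) ≤ y * Real.exp (2 * η) := Nat.floor_le (by positivity)
    have h5 : Real.exp (2 * η) ≤ 1 + 2 * η * Real.exp (2 * η) := by
      have h6 := Real.add_one_le_exp (-(2 * η))
      have h7 : Real.exp (-(2 * η)) * Real.exp (2 * η) = 1 := by rw [← Real.exp_add]; simp
      nlinarith [Real.exp_pos (2 * η)]
    have h6 : Real.exp (2 * η) ≤ 9 := by
      calc Real.exp (2 * η) ≤ Real.exp 2 := Real.exp_le_exp.mpr (by linarith)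
        _ = Real.exp 1 * Real.exp 1 := by rw [← Real.exp_add]; norm_num
        _ ≤ 9 := by nlinarith [Real.exp_one_lt_d9, Real.exp_pos 1]
    have h7 : y * η = 1 := by rw [hη]; field_simp
    have h8 : y * Real.exp (2 * η) ≤ y + 18 := by
      calc y * Real.exp (2 * η) ≤ y * (1 + 2 * η * 9) := by
            gcongr
            calc Real.exp (2 * η) ≤ 1 + 2 * η * Real.exp (2 * η) := h5
              _ ≤ 1 + 2 * η * 9 := by gcongr
        _ = y + 18 * (y * η) := by ring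
        _ = y + 18 := by rw [h7]; ring
    linarith
  have hlogy : 0 ≤ Real.log y := Real.log_nonneg hy
  have hrest : ‖∑ m ∈ Finset.Ioc ⌊y⌋₊ N, ((ac q a m : ℝ) : ℂ) * k2 (x - Real.log m)‖ ≤
      20 * (φ * (20 + Real.log y)) := by
    have hb : ∀ m ∈ Finset.Ioc ⌊y⌋₊ N, ‖((ac q a m : ℝ) : ℂ) * k2 (x - Real.log m)‖ ≤
        φ * (20 + Real.log y) := by
      intro m hm
      rw [Finset.mem_Ioc] at hm
      have hm1 : 1 ≤ m := by omega
      have hm1' : (1:ℝ) ≤ m := by exact_mod_cast hm1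
      rw [norm_mul, Complex.norm_real, Real.norm_eq_abs]
      have h3 : |ac q a m| ≤ φ * (20 + Real.log y) := by
        have a0 := ac_abs_le q a m
        have a2 := ArithmeticFunction.vonMangoldt_le_log (n := m)
        have a3 : Real.log m ≤ Real.log y + 18 := by
          have a4 : (m:ℝ) ≤ y * Real.exp 18 := by
            have : (m:ℝ) ≤ N := by exact_mod_cast hm.2
            have a5 := Real.add_one_le_exp (18:ℝ)
            nlinarith
          have := Real.log_le_log (by linarith) a4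
          rwa [Real.log_mul hy0.ne' (Real.exp_pos _).ne', Real.log_exp] at this
        have a4 : φ * ArithmeticFunction.vonMangoldt m ≤ φ * (Real.log y + 18) :=
          mul_le_mul_of_nonneg_left (a2.trans a3) (by linarith)
        have a5 : φ * (20 + Real.log y) = φ * (Real.log y + 18) + 2 * φ := by ring
        rw [a5]
        linarith
      have h4 : ‖k2 (x - Real.log m)‖ ≤ 1 := by simpa using hn.bound (x - Real.log m)
      calc |ac q a m| * ‖k2 (x - Real.log m)‖ ≤ (φ * (20 + Real.log y)) * 1 := by gcongr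
        _ = _ := mul_one _
    refine (norm_sum_le_of_le _ hb).trans ?_
    rw [Finset.sum_const, Nat.card_Ioc, nsmul_eq_mul, Nat.cast_sub hfloor]
    have h4 : y - 1 < ⌊y⌋₊ := Nat.sub_one_lt_floor y
    have : (N:ℝ) - ⌊y⌋₊ ≤ 20 := by linarith
    gcongr
  -- bound of the integral
  have hint : ‖∫ ξ : ℝ, PG η x Pool.Agent.H295R2.step (FF q a) (σ' + 2 * Real.pi * ξ * Complex.I)‖ ≤
      5 * 550 * Cf * I0 * y ^ σ := by
    have hpt : ∀ ξ : ℝ, ‖PG η x Pool.Agent.H295R2.step (FF q a) (σ' + 2 * Real.pi * ξ * Complex.I)‖ ≤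
        (5 * 550 * Cf * y ^ σ) * (1 + |2 * Real.pi * ξ|) ^ (-(1 + ε)) := by
      intro ξ
      set s : ℂ := σ' + 2 * Real.pi * ξ * Complex.I with hs
      have hsre : s.re = σ' := line_re σ' ξ
      have hsim : s.im = 2 * Real.pi * ξ := line_im σ' ξ
      set T : ℝ := 1 + |2 * Real.pi * ξ| with hT
      have hT0 : 0 < T := by rw [hT]; positivity
      unfold PG
      rw [norm_mul, norm_mul, norm_mul, norm_pow, Lap_step (by rw [hsre]; linarith)]
      have a1 : ‖1 / s‖ ≤ 5 * T ^ (-(1:ℝ)) := by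
        rw [norm_div, norm_one, Real.rpow_neg hT0.le, Real.rpow_one]
        have hs0 : 1 / 4 ≤ ‖s‖ := by
          have := Complex.abs_re_le_norm s
          rw [hsre] at this
          exact h14.trans ((le_abs_self _).trans this)
        have hs1 : |2 * Real.pi * ξ| ≤ ‖s‖ := by rw [← hsim]; exact Complex.abs_im_le_norm s
        rw [← div_eq_mul_inv, div_le_div_iff₀ (by linarith) hT0]
        rw [hT]; linarith
      have a2 : ‖phi η s‖ ^ 2 ≤ 550 * (η * T) ^ (-(2 * ε)) := by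
        have := norm_phi_pow (a := 2 * ε) hη0 hη1 (s := s) (by rw [hsre]; exact h14) (by rw [hsre]; exact h2)
          (by positivity) hε1
        rw [hsim] at this
        exact this
      have a3 : ‖Complex.exp (s * x)‖ = y ^ σ' := by
        rw [Complex.norm_exp]
        simp only [Complex.mul_re, Complex.ofReal_re, Complex.ofReal_im, mul_zero, sub_zero, hsre]
        rw [Real.rpow_def_of_pos hy0, mul_comm]
      have a4 : ‖FF q a s‖ ≤ Cf * T ^ ε := by
        have := hCf a s (by rw [hsre]) (by rw [hsre]; exact h2)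
        rw [hsim] at this
        exact this
      rw [a3]
      have e1 : (η * T) ^ (-(2 * ε)) = y ^ (2 * ε) * T ^ (-(2 * ε)) := by
        rw [Real.mul_rpow hη0.le hT0.le, hη, one_div, Real.inv_rpow hy0.le, ← Real.rpow_neg hy0.le, neg_neg]
      have e2 : y ^ σ' * y ^ (2 * ε) = y ^ σ := by
        rw [← Real.rpow_add hy0]
        congr 1
        rw [hε]; ring
      have e3 : T ^ (-(1:ℝ)) * T ^ (-(2 * ε)) * T ^ ε = T ^ (-(1 + ε)) := by
        rw [← Real.rpow_add hT0, ← Real.rpow_add hT0]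
        congr 1; ring
      calc ‖1 / s‖ * ‖phi η s‖ ^ 2 * y ^ σ' * ‖FF q a s‖
          ≤ (5 * T ^ (-(1:ℝ))) * (550 * (η * T) ^ (-(2 * ε))) * y ^ σ' * (Cf * T ^ ε) := by gcongr
        _ = (5 * 550 * Cf) * (y ^ σ' * y ^ (2 * ε)) * (T ^ (-(1:ℝ)) * T ^ (-(2 * ε)) * T ^ ε) := by
          rw [e1]; ring
        _ = _ := by rw [e2, e3]
    have hI := (integrable_decay' (a := 1 + ε) (by linarith)).const_mul (5 * 550 * Cf * y ^ σ)
    calc _ ≤ ∫ ξ : ℝ, (5 * 550 * Cf * y ^ σ) * (1 + |2 * Real.pi * ξ|) ^ (-(1 + ε)) :=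
          norm_integral_le_of_norm_le hI (Eventually.of_forall hpt)
      _ = _ := by rw [integral_const_mul]; ring
  have hfin : ((φ * psia q a (⌊y⌋₊ : ℝ) - ⌊y⌋₊ : ℝ) : ℂ) =
      (∫ ξ : ℝ, PG η x Pool.Agent.H295R2.step (FF q a) (σ' + 2 * Real.pi * ξ * Complex.I)) -
      ∑ m ∈ Finset.Ioc ⌊y⌋₊ N, ((ac q a m : ℝ) : ℂ) * k2 (x - Real.log m) := by
    rw [← hsum, hsplit]; ring
  have hnorm : |φ * psia q a (⌊y⌋₊ : ℝ) - ⌊y⌋₊| ≤ 5 * 550 * Cf * I0 * y ^ σ + 20 * (φ * (20 + Real.log y)) := by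
    have : |φ * psia q a (⌊y⌋₊ : ℝ) - ⌊y⌋₊| = ‖((φ * psia q a (⌊y⌋₊ : ℝ) - ⌊y⌋₊ : ℝ) : ℂ)‖ := by
      rw [Complex.norm_real, Real.norm_eq_abs]
    rw [this, hfin]
    exact (norm_sub_le _ _).trans (add_le_add hint hrest)
  have hyσ : 1 ≤ y ^ σ := Real.one_le_rpow hy (by linarith)
  have hlog2 : Real.log y ≤ y ^ σ / σ := Real.log_le_rpow_div hy0.le hσ0
  have hfl : |(⌊y⌋₊:ℝ) - y| ≤ 1 := by
    rw [abs_le]
    have h4 : y - 1 < ⌊y⌋₊ := Nat.sub_one_lt_floor y
    have h5 : (⌊y⌋₊:ℝ) ≤ y := Nat.floor_le hy0.le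
    constructor <;> linarith
  have e4 : psia q a y = psia q a (⌊y⌋₊ : ℝ) := by
    unfold psia
    rw [Nat.floor_natCast]
  have e5 : φ * psia q a y - y = (φ * psia q a (⌊y⌋₊ : ℝ) - ⌊y⌋₊) + ((⌊y⌋₊:ℝ) - y) := by
    rw [e4]; ring
  rw [e5]
  calc _ ≤ |φ * psia q a (⌊y⌋₊ : ℝ) - ⌊y⌋₊| + |(⌊y⌋₊:ℝ) - y| := abs_add_le _ _
    _ ≤ (5 * 550 * Cf * I0 * y ^ σ + 20 * (φ * (20 + y ^ σ / σ))) + 1 := by
      refine add_le_add (hnorm.trans ?_) hfl
      gcongr
    _ ≤ (5 * 550 * Cf * I0 + 20 * (φ * (20 + 1 / σ)) + 1) * y ^ σ := by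
      have e6 : (5 * 550 * Cf * I0 + 20 * (φ * (20 + 1 / σ)) + 1) * y ^ σ =
        5 * 550 * Cf * I0 * y ^ σ + 20 * (φ * (20 * y ^ σ + y ^ σ / σ)) + y ^ σ := by ring
      rw [e6]
      have e7 : φ * (20 + y ^ σ / σ) ≤ φ * (20 * y ^ σ + y ^ σ / σ) :=
        mul_le_mul_of_nonneg_left (by linarith) (by linarith)
      linarith

theorem psi_eq_psia (x : ℝ) (b : ℕ) : psi x q b = psia q (b : ZMod q) x := by
  unfold psi psia
  rw [Finset.sum_filter]
  refine Finset.sum_congr rfl fun n _ => ?_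
  rw [residueClass, Set.indicator_apply]
  have h1 : n ≡ b [MOD q] ↔ n ∈ {n : ℕ | (n : ZMod q) = (b : ZMod q)} := by
    rw [← ZMod.natCast_eq_natCast_iff]
    simp
  simp only [h1]

/-- **The direct half**: all reduced classes, pointwise. -/
theorem direct {y : ℝ} (hy : 1 / 2 ≤ y) (hy1 : y < 1) (hz : NoZeros q y) {ε : ℝ} (hε : 0 < ε) :
    ∃ C : ℝ, ∀ x : ℝ, 1 ≤ x → ∀ b : ℕ, b.Coprime q →
      |psi x q b - x / q.totient| ≤ C * x ^ (y + ε) := by
  have h0 : 0 < min ε (1 - y) := lt_min hε (by linarith)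
  obtain ⟨C, hC0, hC⟩ := class_bound q (θ := y) (σ := y + min ε (1 - y)) (by linarith) hz (by linarith)
    (by have := min_le_right ε (1 - y); linarith)
  have hφ : (0:ℝ) < q.totient := by exact_mod_cast Nat.totient_pos.2 (NeZero.pos q)
  refine ⟨C / q.totient, fun x hx b hb => ?_⟩
  have h1 := hC (b : ZMod q) ((ZMod.isUnit_iff_coprime b q).2 hb) x hx
  rw [psi_eq_psia]
  have h2 : psia q (b : ZMod q) x - x / q.totient = (q.totient * psia q (b : ZMod q) x - x) / q.totient := by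
    field_simp
  rw [h2, abs_div, abs_of_pos hφ, div_mul_eq_mul_div]
  refine div_le_div_of_nonneg_right (h1.trans ?_) hφ.le
  refine mul_le_mul_of_nonneg_left ?_ hC0.le
  exact Real.rpow_le_rpow_of_exponent_le hx (by have := min_le_left ε (1 - y); linarith)

end Pool.Agent.R429.OS
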