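import Pool.Agent.TH988.RB.Lan

/-! Landau's theorem for logarithmic derivatives: a nonnegative function whose Laplace transform is
`(h - P'/P)/(c s)` excludes the zeros of `P`. -/

set_option autoImplicit false

namespace Pool.Agent.R429.OS

open MeasureTheory Filter Topology Set Complex
open Pool.Agent.W263.BSD (LInt lapC lapC_differentiableAt lap lapC_ofReal lap_nonneg)
open Pool.Agent.TH988.RB (landau_lap)

theorem re_analytic {f : ℂ → ℂ} {x : ℝ} (hf : AnalyticAt ℂ f (x : ℂ)) :
    AnalyticAt ℝ (fun x : ℝ => (f x).re) x := by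
  have h1 : AnalyticAt ℝ f (x : ℂ) := hf.restrictScalars
  have h2 : AnalyticAt ℝ (fun x : ℝ => (x : ℂ)) x := Complex.ofRealCLM.analyticAt x
  have h3 : AnalyticAt ℝ (fun z : ℂ => z.re) (f x) := Complex.reCLM.analyticAt _
  exact h3.comp_of_eq (h1.comp_of_eq h2 rfl) rfl

variable {P h : ℂ → ℂ} {f : ℝ → ℝ} {a c : ℝ}

theorem half_analytic {h : ℂ → ℂ} (hh : ∀ s : ℂ, a < s.re → DifferentiableAt ℂ h s) {s : ℂ} (hs : a < s.re) :
    AnalyticAt ℂ h s := by
  have ho : IsOpen {z : ℂ | a < z.re} := isOpen_lt continuous_const Complex.continuous_re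
  have : DifferentiableOn ℂ h {z : ℂ | a < z.re} := fun z hz => (hh z hz).differentiableWithinAt
  exact this.analyticAt (ho.mem_nhds hs)

/-- Landau's theorem, as long as `P` has no real zeros beyond `b`. -/
theorem step (hP : Differentiable ℂ P) (hf : Measurable f) (h0 : ∀ u, 0 < u → 0 ≤ f u) (ha : 0 < a)
    (hc : 0 < c) (hh : ∀ s : ℂ, a < s.re → DifferentiableAt ℂ h s) (hL : ∀ w > 1, LInt f w)
    (heq : ∀ s : ℂ, 1 < s.re → deriv P s / P s = h s - c * s * lapC f s) {b : ℝ} (hab : a ≤ b)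
    (hb : ∀ x : ℝ, b < x → P x ≠ 0) :
    (∀ w > b, LInt f w) ∧ ∀ w > b, lap f w = ((h w - deriv P w / P w) / (c * w)).re := by
  refine landau_lap hf h0 hL (g := fun w : ℝ => ((h w - deriv P w / P w) / (c * w)).re) ?_ ?_
  · intro w hw
    have hw0 : 0 < w := by linarith
    refine re_analytic (f := fun z : ℂ => (h z - deriv P z / P z) / (c * z)) ?_
    have h1 : AnalyticAt ℂ P w := hP.analyticAt w
    have h2 : AnalyticAt ℂ h w := half_analytic hh (by simpa using lt_of_le_of_lt hab hw)
    refine (h2.sub (h1.deriv.div h1 (hb w hw))).div (by fun_prop) ?_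
    have : (c : ℂ) ≠ 0 := by exact_mod_cast hc.ne'
    have : (w : ℂ) ≠ 0 := by exact_mod_cast hw0.ne'
    positivity
  · intro w hw _
    have hw0 : (0:ℝ) < w := by linarith
    have h1 := heq w (by simpa using hw)
    rw [lapC_ofReal] at h1
    have h2 : h w - deriv P w / P w = ((c * w * lap f w : ℝ) : ℂ) := by
      rw [h1]; push_cast; ring
    have h3 : (h w - deriv P w / P w) / (c * w) = ((lap f w : ℝ) : ℂ) := by
      rw [h2, div_eq_iff (by
        have : (c : ℂ) ≠ 0 := by exact_mod_cast hc.ne'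
        have : (w : ℂ) ≠ 0 := by exact_mod_cast hw0.ne'
        positivity)]
      push_cast; ring
    rw [h3, Complex.ofReal_re]

theorem normSq_deriv (hP : Differentiable ℂ P) (x : ℝ) :
    HasDerivAt (fun x : ℝ => Complex.normSq (P x)) (2 * ((starRingEnd ℂ) (P x) * deriv P x).re) x := by
  have h1 : HasDerivAt (fun x : ℝ => P x) (deriv P x) x := (hP x).hasDerivAt.comp_ofReal
  have h2 : HasDerivAt (fun x : ℝ => (P x).re) (deriv P x).re x :=
    Complex.reCLM.hasFDerivAt.comp_hasDerivAt x h1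
  have h3 : HasDerivAt (fun x : ℝ => (P x).im) (deriv P x).im x :=
    Complex.imCLM.hasFDerivAt.comp_hasDerivAt x h1
  have h4 := (h2.mul h2).add (h3.mul h3)
  refine h4.congr_deriv ?_
  simp [Complex.mul_re]
  ring

theorem no_real (hP : Differentiable ℂ P) (hf : Measurable f) (h0 : ∀ u, 0 < u → 0 ≤ f u) (ha : 0 < a)
    (hc : 0 < c) (hh : ∀ s : ℂ, a < s.re → DifferentiableAt ℂ h s) (hL : ∀ w > 1, LInt f w)
    (hne : ∀ s : ℂ, 1 < s.re → P s ≠ 0)
    (heq : ∀ s : ℂ, 1 < s.re → deriv P s / P s = h s - c * s * lapC f s) :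
    ∀ x : ℝ, a < x → P x ≠ 0 := by
  intro x hx hx0
  have hx1 : x ≤ 1 := by
    by_contra hcon
    exact hne x (by simpa using not_le.1 hcon) hx0
  have hcont : Continuous fun t : ℝ => P t := hP.continuous.comp Complex.continuous_ofReal
  have hcomp : IsCompact {t : ℝ | t ∈ Icc x 1 ∧ P t = 0} := by
    refine isCompact_Icc.inter_right ?_
    exact isClosed_singleton.preimage hcont
  obtain ⟨β, ⟨⟨hβ1, hβ2⟩, hβ3⟩, hβ4⟩ := hcomp.exists_isGreatest ⟨x, ⟨le_rfl, hx1⟩, hx0⟩
  have hb : ∀ t : ℝ, β < t → P t ≠ 0 := by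
    intro t ht h1
    rcases le_or_gt t 1 with h2 | h2
    · exact absurd (hβ4 ⟨⟨by linarith, h2⟩, h1⟩) (not_le.2 ht)
    · exact hne t (by simpa using h2) h1
  have haβ : a < β := by linarith
  obtain ⟨-, hlap⟩ := step hP hf h0 ha hc hh hL heq haβ.le hb
  -- an upper bound for the real part of `h`
  have hhc : ContinuousOn (fun t : ℝ => (h t).re) (Icc β (β + 1)) := by
    intro t ht
    have h1 : DifferentiableAt ℂ h (t : ℂ) := hh t (by simpa using lt_of_lt_of_le haβ ht.1)
    exact (Complex.continuous_re.continuousAt.comp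
      (h1.continuousAt.comp Complex.continuous_ofReal.continuousAt)).continuousWithinAt
  obtain ⟨B, hB⟩ := isCompact_Icc.bddAbove_image hhc
  have hre : ∀ t ∈ Ioo β (β + 1), (deriv P t / P t).re ≤ B := by
    intro t ht
    have h1 : 0 ≤ lap f t := lap_nonneg h0 t
    have hct : 0 < c * t := by have := ht.1; have : 0 < t := by linarith
                               positivity
    rw [hlap t ht.1, show (c : ℂ) * (t : ℂ) = ((c * t : ℝ) : ℂ) by push_cast; rfl, Complex.div_ofReal_re,
      le_div_iff₀ hct, zero_mul, Complex.sub_re] at h1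
    have h2 : (h t).re ≤ B := hB ⟨t, ⟨ht.1.le, ht.2.le⟩, rfl⟩
    linarith
  have hanti : AntitoneOn (fun t : ℝ => Complex.normSq (P t) * Real.exp (-(2 * B * t))) (Icc β (β + 1)) := by
    have hd : ∀ t : ℝ, HasDerivAt (fun t : ℝ => Complex.normSq (P t) * Real.exp (-(2 * B * t)))
        ((2 * ((starRingEnd ℂ) (P t) * deriv P t).re) * Real.exp (-(2 * B * t)) +
          Complex.normSq (P t) * (Real.exp (-(2 * B * t)) * (-(2 * B)))) t := by
      intro t
      have h1 : HasDerivAt (fun t : ℝ => Real.exp (-(2 * B * t))) (Real.exp (-(2 * B * t)) * (-(2 * B))) t := by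
        have h2 : HasDerivAt (fun t : ℝ => -(2 * B * t)) (-(2 * B)) t := by
          have e : (fun t : ℝ => -(2 * B * t)) = fun t => (-(2 * B)) * t := by funext t; ring
          rw [e]
          simpa using (hasDerivAt_id t).const_mul (-(2 * B))
        exact h2.exp
      exact (normSq_deriv hP t).mul h1
    refine antitoneOn_of_deriv_nonpos (convex_Icc _ _) ?_ ?_ ?_
    · exact fun t _ => (hd t).continuousAt.continuousWithinAt
    · exact fun t _ => (hd t).differentiableAt.differentiableWithinAt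
    · intro t ht
      rw [interior_Icc] at ht
      rw [(hd t).deriv]
      have hPt := hb t ht.1
      have h1 : ((starRingEnd ℂ) (P t) * deriv P t).re = Complex.normSq (P t) * (deriv P t / P t).re := by
        have h2 : (starRingEnd ℂ) (P t) * deriv P t = (Complex.normSq (P t) : ℂ) * (deriv P t / P t) := by
          rw [← Complex.mul_conj]
          field_simp
        rw [h2, Complex.re_ofReal_mul]
      rw [h1]
      have h3 := hre t ht
      have h4 : 0 ≤ Complex.normSq (P t) := Complex.normSq_nonneg _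
      have h5 : Complex.normSq (P t) * (deriv P t / P t).re ≤ Complex.normSq (P t) * B :=
        mul_le_mul_of_nonneg_left h3 h4
      have h6 := Real.exp_pos (-(2 * B * t))
      nlinarith
  have h1 := hanti (left_mem_Icc.2 (by linarith)) (right_mem_Icc.2 (by linarith)) (by linarith : β ≤ β + 1)
  simp only [hβ3, map_zero, zero_mul] at h1
  have h2 : 0 < Complex.normSq (P ((β + 1 : ℝ) : ℂ)) := Complex.normSq_pos.2 (hb _ (by linarith))
  have h3 := Real.exp_pos (-(2 * B * (β + 1)))
  have := mul_pos h2 h3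
  linarith

/-- **The abstract one-sided theorem.** -/
theorem core (hP : Differentiable ℂ P) (hf : Measurable f) (h0 : ∀ u, 0 < u → 0 ≤ f u) (ha : 0 < a)
    (ha1 : a ≤ 1) (hc : 0 < c) (hh : ∀ s : ℂ, a < s.re → DifferentiableAt ℂ h s) (hL : ∀ w > 1, LInt f w)
    (hne : ∀ s : ℂ, 1 < s.re → P s ≠ 0)
    (heq : ∀ s : ℂ, 1 < s.re → deriv P s / P s = h s - c * s * lapC f s) :
    ∀ s : ℂ, a < s.re → P s ≠ 0 := by
  have hreal := no_real hP hf h0 ha hc hh hL hne heq
  obtain ⟨hLa, -⟩ := step hP hf h0 ha hc hh hL heq le_rfl hreal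
  set H : ℂ → ℂ := fun s => h s - c * s * lapC f s with hH
  have hHd : ∀ s : ℂ, a < s.re → DifferentiableAt ℂ H s := by
    intro s hs
    have h1 : DifferentiableAt ℂ (lapC f) s := lapC_differentiableAt hf hLa hs
    exact (hh s hs).sub ((by fun_prop : DifferentiableAt ℂ (fun s : ℂ => (c : ℂ) * s) s).mul h1)
  have ho : IsOpen {z : ℂ | a < z.re} := isOpen_lt continuous_const Complex.continuous_re
  have hconv : Convex ℝ {z : ℂ | a < z.re} := convex_halfSpace_re_gt a
  have hE : ∀ s : ℂ, a < s.re → deriv P s = P s * H s := by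
    have h1 : AnalyticOnNhd ℂ (deriv P) {z : ℂ | a < z.re} := fun z _ => (hP.analyticAt z).deriv
    have h2 : AnalyticOnNhd ℂ (fun s => P s * H s) {z : ℂ | a < z.re} := fun z hz =>
      (hP.analyticAt z).mul (half_analytic hHd hz)
    have h3 : (2 : ℂ) ∈ {z : ℂ | a < z.re} := by
      show a < (2 : ℂ).re
      simp only [Complex.re_ofNat]; linarith
    have ho1 : IsOpen {z : ℂ | 1 < z.re} := isOpen_lt continuous_const Complex.continuous_re
    have h4 : deriv P =ᶠ[𝓝 (2 : ℂ)] fun s => P s * H s := by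
      filter_upwards [ho1.mem_nhds (show (2:ℂ) ∈ {z : ℂ | 1 < z.re} by simp)] with s hs
      have h5 := heq s hs
      rw [div_eq_iff (hne s hs)] at h5
      rw [h5, mul_comm]
    exact fun s hs => h1.eqOn_of_preconnected_of_eventuallyEq h2 hconv.isPreconnected h3 h4 hs
  intro s hs hs0
  -- orders
  have hA : AnalyticAt ℂ P s := hP.analyticAt s
  have htop : analyticOrderAt P s ≠ ⊤ := by
    intro h1
    rw [analyticOrderAt_eq_top] at h1
    have h2 : AnalyticOnNhd ℂ P univ := fun z _ => hP.analyticAt z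
    have h3 := h2.eqOn_zero_of_preconnected_of_eventuallyEq_zero isPreconnected_univ (mem_univ s) h1
    exact hne 2 (by simp) (h3 (mem_univ _))
  obtain ⟨m, hm⟩ := ENat.ne_top_iff_exists.1 htop
  have hm0 : m ≠ 0 := by
    rintro rfl
    have : analyticOrderAt P s = 0 := by rw [← hm]; rfl
    exact (hA.analyticOrderAt_eq_zero.1 this) hs0
  obtain ⟨g, hg, hg0, hgeq⟩ := (hA.analyticOrderAt_eq_natCast).1 hm.symm
  obtain ⟨k, rfl⟩ := Nat.exists_eq_succ_of_ne_zero hm0
  -- `P = (z - s)^(k+1) g`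
  have hder : ∀ᶠ z in 𝓝 s, deriv P z = ((k : ℂ) + 1) * (z - s) ^ k * g z + (z - s) ^ (k + 1) * deriv g z := by
    have h1 : deriv P =ᶠ[𝓝 s] deriv (fun z => (z - s) ^ (k + 1) • g z) := EventuallyEq.deriv hgeq
    filter_upwards [h1, hg.eventually_analyticAt] with z z1 z2
    have h2 : HasDerivAt (fun z : ℂ => (z - s) ^ (k + 1) • g z)
        (((k + 1 : ℕ) : ℂ) * (z - s) ^ k * 1 * g z + (z - s) ^ (k + 1) * deriv g z) z :=
      (((hasDerivAt_id z).sub_const s).pow (k + 1)).mul z2.differentiableAt.hasDerivAt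
    rw [z1, h2.deriv]
    push_cast; ring
  have hrel : ∀ᶠ z in 𝓝[≠] s, ((k : ℂ) + 1) * g z + (z - s) * deriv g z = (z - s) * (g z * H z) := by
    have h1 := hder.filter_mono (nhdsWithin_le_nhds (s := {s}ᶜ))
    have h2 := hgeq.filter_mono (nhdsWithin_le_nhds (s := {s}ᶜ))
    have h3 : ∀ᶠ z in 𝓝[≠] s, a < z.re := nhdsWithin_le_nhds (ho.mem_nhds hs)
    filter_upwards [h1, h2, h3, self_mem_nhdsWithin] with z z1 z2 z3 z4
    have h5 : z - s ≠ 0 := sub_ne_zero.2 z4
    have h6 := hE z z3
    rw [z1, z2, smul_eq_mul] at h6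
    have h7 : (z - s) ^ k ≠ 0 := pow_ne_zero _ h5
    apply mul_left_cancel₀ h7
    rw [pow_succ] at h6
    linear_combination h6
  have hl : Tendsto (fun z => ((k : ℂ) + 1) * g z + (z - s) * deriv g z) (𝓝[≠] s) (𝓝 (((k : ℂ) + 1) * g s)) := by
    have h1 : ContinuousAt (fun z => ((k : ℂ) + 1) * g z + (z - s) * deriv g z) s := by
      have := hg.continuousAt
      have := hg.deriv.continuousAt
      fun_prop
    have h2 := h1.tendsto
    simp only [sub_self, zero_mul, add_zero] at h2
    exact h2.mono_left nhdsWithin_le_nhds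
  have hr : Tendsto (fun z => (z - s) * (g z * H z)) (𝓝[≠] s) (𝓝 0) := by
    have h1 : ContinuousAt (fun z => (z - s) * (g z * H z)) s := by
      have := hg.continuousAt
      have := (hHd s hs).continuousAt
      fun_prop
    have h2 := h1.tendsto
    simp only [sub_self, zero_mul] at h2
    exact h2.mono_left nhdsWithin_le_nhds
  have := tendsto_nhds_unique (hl.congr' hrel) hr
  have hk : ((k : ℂ) + 1) ≠ 0 := by exact_mod_cast Nat.succ_ne_zero k
  exact (mul_ne_zero hk hg0) this

end Pool.Agent.R429.OS
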