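import Pool.Agent.R429.OS.Core

/-! One-sided bounds for primes `= 1` modulo `q` and zeros of Dirichlet L-functions. -/

set_option autoImplicit false

namespace Pool.Agent.R429.OS

open MeasureTheory Filter Topology Set Complex DirichletCharacter
open ArithmeticFunction.vonMangoldt (residueClass LFunctionResidueClassAux)
open Pool.Agent.W263.BSD (LInt lapC lapC_differentiableAt lap lapC_ofReal lap_nonneg)

variable (q : ℕ) [NeZero q]

open scoped Classical in
/-- the product of the L-functions modulo `q`, times `s - 1` -/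
noncomputable def PP (s : ℂ) : ℂ :=
  LFunctionTrivChar₁ q s * ∏ χ ∈ ({1}ᶜ : Finset (DirichletCharacter ℂ q)), LFunction χ s

theorem ne_one_of_mem {χ : DirichletCharacter ℂ q} {S : Finset (DirichletCharacter ℂ q)}
    (hS : 1 ∉ S) (h : χ ∈ S) : χ ≠ 1 := by
  rintro rfl
  exact hS h

theorem PP_diff : Differentiable ℂ (PP q) := by
  classical
  unfold PP
  refine (differentiable_LFunctionTrivChar₁ q).mul ?_
  have : (fun s : ℂ => ∏ χ ∈ ({1}ᶜ : Finset (DirichletCharacter ℂ q)), LFunction χ s) =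
      ∏ χ ∈ ({1}ᶜ : Finset (DirichletCharacter ℂ q)), LFunction χ := by
    funext s; simp
  rw [this]
  refine Differentiable.finsetProd fun χ hχ => differentiable_LFunction ?_
  simpa using hχ

theorem triv_ne {s : ℂ} (hs : 1 < s.re) : LFunctionTrivChar₁ q s ≠ 0 := by
  have h1 : s ≠ 1 := by rintro rfl; simp at hs
  rw [LFunctionTrivChar₁, Function.update_of_ne h1]
  exact mul_ne_zero (sub_ne_zero.2 h1) (LFunction_ne_zero_of_one_le_re _ (.inr h1) hs.le)

theorem L_ne (χ : DirichletCharacter ℂ q) {s : ℂ} (hs : 1 < s.re) : LFunction χ s ≠ 0 := by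
  have h1 : s ≠ 1 := by rintro rfl; simp at hs
  exact LFunction_ne_zero_of_one_le_re _ (.inr h1) hs.le

theorem PP_ne {s : ℂ} (hs : 1 < s.re) : PP q s ≠ 0 := by
  classical
  unfold PP
  exact mul_ne_zero (triv_ne q hs) (Finset.prod_ne_zero_iff.2 fun χ _ => L_ne q χ hs)

theorem PP_zero {χ : DirichletCharacter ℂ q} {s : ℂ} (h1 : s ≠ 1 ∨ χ ≠ 1) (h : LFunction χ s = 0) :
    PP q s = 0 := by
  classical
  unfold PP
  by_cases h2 : χ = 1
  · subst h2
    have h3 : s ≠ 1 := by simpa using h1
    rw [LFunctionTrivChar₁, Function.update_of_ne h3]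
    have h4 : LFunctionTrivChar q s = 0 := h
    rw [h4, mul_zero, zero_mul]
  · rw [Finset.prod_eq_zero (i := χ) (by simpa using h2) h, mul_zero]

theorem PP_logder {s : ℂ} (hs : 1 < s.re) :
    deriv (PP q) s / PP q s = -(q.totient : ℂ) * LFunctionResidueClassAux (1 : ZMod q) s := by
  classical
  have h0 : (q.totient : ℂ) ≠ 0 := by
    exact_mod_cast (Nat.totient_pos.2 (NeZero.pos q)).ne'
  have h1 : logDeriv (PP q) s = logDeriv (LFunctionTrivChar₁ q) s +
      ∑ χ ∈ ({1}ᶜ : Finset (DirichletCharacter ℂ q)), logDeriv (LFunction χ) s := by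
    unfold PP
    rw [logDeriv_mul s (triv_ne q hs) (Finset.prod_ne_zero_iff.2 fun χ _ => L_ne q χ hs)
      ((differentiable_LFunctionTrivChar₁ q) s) ?_]
    · congr 1
      refine logDeriv_prod (fun χ _ => L_ne q χ hs) fun χ hχ => ?_
      exact (differentiable_LFunction (by simpa using hχ)) s
    · have : (fun s : ℂ => ∏ χ ∈ ({1}ᶜ : Finset (DirichletCharacter ℂ q)), LFunction χ s) =
          ∏ χ ∈ ({1}ᶜ : Finset (DirichletCharacter ℂ q)), LFunction χ := by
        funext s; simp
      rw [this]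
      refine (Differentiable.finsetProd fun χ hχ => differentiable_LFunction ?_) s
      simpa using hχ
  rw [logDeriv_apply] at h1
  rw [h1, LFunctionResidueClassAux]
  have h2 : ∀ χ : DirichletCharacter ℂ q, χ (1 : ZMod q)⁻¹ = 1 := by
    intro χ
    have : (1 : ZMod q)⁻¹ = 1 := by
      have := ZMod.mul_inv_of_unit (1 : ZMod q) isUnit_one
      rwa [one_mul] at this
    rw [this, map_one]
  simp only [h2, one_mul, logDeriv_apply]
  have e : ∀ x S : ℂ, -(q.totient : ℂ) * ((q.totient : ℂ)⁻¹ * (-x - S)) = x + S := by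
    intro x S
    field_simp
    ring
  rw [neg_div, e]
  refine congrArg₂ (· + ·) rfl (Finset.sum_congr ?_ fun _ _ => rfl)
  ext χ
  simp only [Finset.mem_compl, Finset.mem_singleton]

/-- primes and prime powers `= 1` modulo `q` up to `exp u` -/
noncomputable def AA (u : ℝ) : ℝ := ∑ k ∈ Finset.Icc 1 ⌊Real.exp u⌋₊, residueClass (1 : ZMod q) k

theorem AA_meas : Measurable (AA q) := by
  have h1 : Measurable fun n : ℕ => ∑ k ∈ Finset.Icc 1 n, residueClass (1 : ZMod q) k :=
    measurable_from_top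
  exact h1.comp (Nat.measurable_floor.comp Real.measurable_exp)

theorem sum_le (n : ℕ) : ∑ k ∈ Finset.Icc 1 n, residueClass (1 : ZMod q) k ≤ (Real.log 4 + 4) * n := by
  have h1 := Chebyshev.psi_le_const_mul_self (x := n) (Nat.cast_nonneg n)
  refine le_trans ?_ h1
  unfold Chebyshev.psi
  rw [Nat.floor_natCast]
  refine Finset.sum_le_sum fun k _ => ArithmeticFunction.vonMangoldt.residueClass_le _ _

theorem sum_nonneg (n : ℕ) : 0 ≤ ∑ k ∈ Finset.Icc 1 n, residueClass (1 : ZMod q) k :=
  Finset.sum_nonneg fun k _ => ArithmeticFunction.vonMangoldt.residueClass_nonneg _ _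

theorem AA_nonneg (u : ℝ) : 0 ≤ AA q u := sum_nonneg q _

theorem AA_le (u : ℝ) : AA q u ≤ (Real.log 4 + 4) * Real.exp u := by
  refine (sum_le q _).trans ?_
  have := Nat.floor_le (Real.exp_pos u).le
  have h4 := Real.log_nonneg (show (1:ℝ) ≤ 4 by norm_num)
  exact mul_le_mul_of_nonneg_left this (by positivity)

theorem exp_LInt {b w : ℝ} (h : b < w) : LInt (fun u => Real.exp (b * u)) w := by
  unfold LInt
  have h1 := integrableOn_exp_mul_Ioi (a := b - w) (by linarith) 0
  refine h1.congr (Eventually.of_forall fun u => ?_)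
  simp only
  rw [← Real.exp_add]
  congr 1; ring

theorem AA_LInt {w : ℝ} (hw : 1 < w) : LInt (AA q) w := by
  have h1 : LInt (fun u => (Real.log 4 + 4) * Real.exp (1 * u)) w := (exp_LInt hw).const_mul _
  unfold LInt at *
  refine Integrable.mono h1 ((AA_meas q).mul (by fun_prop)).aestronglyMeasurable
    (Eventually.of_forall fun u => ?_)
  rw [norm_mul, norm_mul]
  refine mul_le_mul_of_nonneg_right ?_ (norm_nonneg _)
  rw [Real.norm_of_nonneg (AA_nonneg q u)]
  show AA q u ≤ ‖(Real.log 4 + 4) * Real.exp (1 * u)‖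
  rw [one_mul]
  exact (AA_le q u).trans (le_abs_self _)

theorem lapC_exp {b : ℝ} {s : ℂ} (h : b < s.re) : lapC (fun u => Real.exp (b * u)) s = 1 / (s - b) := by
  unfold lapC
  have h1 := integral_exp_mul_complex_Ioi (a := b - s) (by simpa using h) 0
  have h2 : ∀ u : ℝ, ((Real.exp (b * u) : ℝ) : ℂ) * cexp (-(s * u)) = cexp ((b - s) * u) := by
    intro u
    rw [Complex.ofReal_exp, ← Complex.exp_add]
    congr 1; push_cast; ring
  simp_rw [h2]
  rw [h1]
  have h3 : s - b ≠ 0 := by
    intro h4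
    have := congrArg Complex.re h4
    simp at this
    linarith
  have h5 : (b : ℂ) - s ≠ 0 := by
    intro h6; apply h3; linear_combination -h6
  simp only [Complex.ofReal_zero, mul_zero, Complex.exp_zero]
  field_simp
  ring

theorem lapC_AA {s : ℂ} (hs : 1 < s.re) :
    s * lapC (AA q) s = LSeries (fun n => (residueClass (1 : ZMod q) n : ℂ)) s := by
  have hO : (fun n : ℕ => ∑ k ∈ Finset.Icc 1 n, residueClass (1 : ZMod q) k) =O[atTop]
      fun n => (n : ℝ) ^ (1 : ℝ) := by
    refine Asymptotics.IsBigO.of_bound (Real.log 4 + 4) (Eventually.of_forall fun n => ?_)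
    rw [Real.rpow_one, Real.norm_of_nonneg (sum_nonneg q n), Real.norm_of_nonneg (Nat.cast_nonneg n)]
    exact sum_le q n
  rw [LSeries_eq_mul_integral_of_nonneg (residueClass (1 : ZMod q)) zero_le_one hs hO
    (ArithmeticFunction.vonMangoldt.residueClass_nonneg _)]
  congr 1
  have himg : Real.exp '' (Ioi 0) = Ioi 1 := by
    ext t
    constructor
    · rintro ⟨u, hu, rfl⟩
      exact Real.one_lt_exp_iff.2 hu
    · intro ht
      have ht0 : (0:ℝ) < t := lt_trans zero_lt_one ht
      exact ⟨Real.log t, Real.log_pos ht, Real.exp_log ht0⟩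
  rw [← himg, integral_image_eq_integral_abs_deriv_smul measurableSet_Ioi
    (fun u _ => (Real.hasDerivAt_exp u).hasDerivWithinAt) Real.exp_injective.injOn]
  unfold lapC
  refine setIntegral_congr_fun measurableSet_Ioi fun u _ => ?_
  show _ = _
  rw [abs_of_pos (Real.exp_pos u), Complex.real_smul]
  have he : ((Real.exp u : ℝ) : ℂ) ≠ 0 := by exact_mod_cast (Real.exp_pos u).ne'
  have h1 : ((Real.exp u : ℝ) : ℂ) ^ (-(s + 1)) = cexp (-(s * u)) * ((Real.exp u : ℝ) : ℂ)⁻¹ := by
    rw [Complex.cpow_def_of_ne_zero he, ← Complex.ofReal_log (Real.exp_pos u).le, Real.log_exp,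
      Complex.ofReal_exp, ← Complex.exp_neg, ← Complex.exp_add]
    congr 1; ring
  rw [h1]
  unfold AA
  push_cast
  field_simp

/-- **One-sided bound for the class 1.** -/
theorem one_sided {a C : ℝ} (ha : 0 < a) (ha1 : a ≤ 1)
    (hlow : ∀ u : ℝ, 0 < u → Real.exp u / q.totient - C * Real.exp (a * u) ≤ AA q u)
    {χ : DirichletCharacter ℂ q} {s : ℂ} (hs : a < s.re) (h1 : s ≠ 1 ∨ χ ≠ 1) : LFunction χ s ≠ 0 := by
  set φ : ℝ := (q.totient : ℝ) with hφ
  have hφ0 : 0 < φ := by rw [hφ]; exact_mod_cast Nat.totient_pos.2 (NeZero.pos q)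
  set f : ℝ → ℝ := fun u => AA q u - φ⁻¹ * Real.exp (1 * u) + C * Real.exp (a * u) with hf
  have hfm : Measurable f := ((AA_meas q).sub (by fun_prop)).add (by fun_prop)
  have hf0 : ∀ u, 0 < u → 0 ≤ f u := by
    intro u hu
    have := hlow u hu
    rw [hf]
    simp only
    rw [one_mul, inv_mul_eq_div]
    linarith
  have hL : ∀ w > 1, LInt f w := fun w hw =>
    ((AA_LInt q hw).sub ((exp_LInt hw).const_mul _)).add ((exp_LInt (by linarith)).const_mul _)
  have hlap : ∀ s : ℂ, 1 < s.re → lapC f s = lapC (AA q) s - φ⁻¹ * (1 / (s - 1)) + C * (1 / (s - a)) := by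
    intro s hs
    have i1 := LInt.complex (AA_meas q) (z := s) (AA_LInt q hs)
    have i2 := LInt.complex (f := fun u => Real.exp (1 * u)) (by fun_prop) (z := s) (exp_LInt hs)
    have i3 := LInt.complex (f := fun u => Real.exp (a * u)) (by fun_prop) (z := s) (exp_LInt (by linarith))
    have l1 := lapC_exp (b := 1) hs
    have l2 := lapC_exp (b := a) (s := s) (by linarith)
    rw [Complex.ofReal_one] at l1
    rw [← l1, ← l2]
    have i12 : IntegrableOn (fun u : ℝ => ((AA q u : ℝ) : ℂ) * cexp (-(s * u)) -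
        ((φ⁻¹ : ℝ) : ℂ) * (((Real.exp (1 * u) : ℝ) : ℂ) * cexp (-(s * u)))) (Ioi 0) := i1.sub (i2.const_mul _)
    have i33 : IntegrableOn (fun u : ℝ => (C : ℂ) * (((Real.exp (a * u) : ℝ) : ℂ) * cexp (-(s * u)))) (Ioi 0) :=
      i3.const_mul _
    have j1 : ∫ u in Ioi (0:ℝ), (((AA q u : ℝ) : ℂ) * cexp (-(s * u)) -
        ((φ⁻¹ : ℝ) : ℂ) * (((Real.exp (1 * u) : ℝ) : ℂ) * cexp (-(s * u)))) =
        lapC (AA q) s - ((φ⁻¹ : ℝ) : ℂ) * lapC (fun u => Real.exp (1 * u)) s := by
      unfold lapC
      rw [integral_sub i1 (i2.const_mul _), integral_const_mul]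
    have j2 : ∫ u in Ioi (0:ℝ), (C : ℂ) * (((Real.exp (a * u) : ℝ) : ℂ) * cexp (-(s * u))) =
        C * lapC (fun u => Real.exp (a * u)) s := by
      unfold lapC
      rw [integral_const_mul]
    rw [← j1, ← j2, ← integral_add i12 i33]
    unfold lapC
    congr 1
    funext u
    rw [hf]
    push_cast
    ring
  set h : ℂ → ℂ := fun s => -1 + φ * C * s / (s - a) with hh
  have hhd : ∀ s : ℂ, a < s.re → DifferentiableAt ℂ h s := by
    intro s hs
    have h3 : s - a ≠ 0 := by
      intro h4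
      have := congrArg Complex.re h4
      simp at this
      linarith
    rw [hh]
    exact DifferentiableAt.add (by fun_prop) (DifferentiableAt.div (by fun_prop) (by fun_prop) h3)
  have heq : ∀ s : ℂ, 1 < s.re → deriv (PP q) s / PP q s = h s - φ * s * lapC f s := by
    intro s hs
    have hs1 : s - 1 ≠ 0 := by
      intro h4
      have := congrArg Complex.re h4
      simp at this
      linarith
    have hsa : s - a ≠ 0 := by
      intro h4
      have := congrArg Complex.re h4
      simp at this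
      linarith
    have hφc : (φ : ℂ) ≠ 0 := by exact_mod_cast hφ0.ne'
    have e1 := ArithmeticFunction.vonMangoldt.eqOn_LFunctionResidueClassAux (q := q) (a := 1) isUnit_one
      (show s ∈ {s : ℂ | 1 < s.re} from hs)
    simp only at e1
    have e2 := lapC_AA q hs
    have e3 : (q.totient : ℂ) = (φ : ℂ) := by rw [hφ]; push_cast; rfl
    rw [PP_logder q hs, e1, hlap s hs, hh, e3, Complex.ofReal_inv]
    simp only
    rw [← e2]
    field_simp
    ring
  have key := core (PP_diff q) hfm hf0 ha ha1 hφ0 hhd hL (fun s hs => PP_ne q hs) heq s hs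
  intro h0
  exact key (PP_zero q h1 h0)

end Pool.Agent.R429.OS
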