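import Pool.Agent.R429.OS.Conv

/-! Equivalences. -/

set_option autoImplicit false

namespace Pool.Agent.R429.OS

open MeasureTheory Filter Topology Set

/-- a pointwise bound gives the bound in mean -/
theorem mean_of_bound (q : ℕ) {y : ℝ} (hy : 1 / 2 ≤ y)
    (h : ∀ ε : ℝ, 0 < ε → ∃ C : ℝ, ∀ x : ℝ, 1 ≤ x → x / q.totient - C * x ^ (y + ε) ≤ psi x q 1) :
    ∀ ε : ℝ, 0 < ε → ∀ᶠ X : ℝ in atTop, ∫ x in X..(2 * X), neg x q 1 ≤ X ^ (1 + y + ε) := by
  intro ε hε
  obtain ⟨C, hC⟩ := h (ε / 2) (by linarith)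
  have h4 : ∀ᶠ X : ℝ in atTop, |C| * (2:ℝ) ^ (y + ε / 2) ≤ X ^ (ε / 2) :=
    (tendsto_rpow_atTop (by linarith : 0 < ε / 2)).eventually_ge_atTop _
  filter_upwards [h4, eventually_ge_atTop 1] with X hX4 hX1
  have hX0 : 0 < X := by linarith
  have h1 : ∀ x ∈ Set.Icc X (2 * X), neg x q 1 ≤ |C| * (2 * X) ^ (y + ε / 2) := by
    intro x hx
    have hx0 : 0 < x := lt_of_lt_of_le hX0 hx.1
    have h2 := hC x (hX1.trans hx.1)
    have h3 : C * x ^ (y + ε / 2) ≤ |C| * (2 * X) ^ (y + ε / 2) := by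
      have h5 : x ^ (y + ε / 2) ≤ (2 * X) ^ (y + ε / 2) := Real.rpow_le_rpow hx0.le hx.2 (by linarith)
      have h6 : 0 ≤ x ^ (y + ε / 2) := Real.rpow_nonneg hx0.le _
      calc C * x ^ (y + ε / 2) ≤ |C| * x ^ (y + ε / 2) := mul_le_mul_of_nonneg_right (le_abs_self C) h6
        _ ≤ _ := mul_le_mul_of_nonneg_left h5 (abs_nonneg C)
    refine max_le ?_ (by positivity)
    linarith
  have h2 : ∫ x in X..(2 * X), neg x q 1 ≤ ∫ x in X..(2 * X), |C| * (2 * X) ^ (y + ε / 2) := by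
    refine intervalIntegral.integral_mono_on (by linarith) ?_ (by simp) h1
    exact neg_int q 1 (by linarith) (by linarith)
  refine h2.trans ?_
  rw [intervalIntegral.integral_const, smul_eq_mul, Real.mul_rpow (by norm_num) hX0.le]
  calc (2 * X - X) * (|C| * (2 ^ (y + ε / 2) * X ^ (y + ε / 2))) =
        X * ((|C| * 2 ^ (y + ε / 2)) * X ^ (y + ε / 2)) := by ring
    _ ≤ X * (X ^ (ε / 2) * X ^ (y + ε / 2)) := by gcongr
    _ = X ^ (1 + y + ε) := by
        rw [← Real.rpow_add hX0]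
        nth_rewrite 1 [← Real.rpow_one X]
        rw [← Real.rpow_add hX0]
        congr 1; ring

theorem one_mem_classes {q : ℕ} (hq : 1 < q) : classes q q = {1} := by
  ext b
  unfold classes
  rw [Finset.mem_filter, Finset.mem_range, Finset.mem_singleton]
  constructor
  · rintro ⟨h1, _, h3⟩
    exact Nat.ModEq.eq_of_lt_of_lt h3 h1 hq
  · rintro rfl
    exact ⟨hq, by simp, rfl⟩

theorem classes_self_sum {q : ℕ} (hq : 0 < q) (x : ℝ) : ∑ b ∈ classes q q, neg x q b = neg x q 1 := by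
  rcases Nat.lt_or_ge 1 q with h | h
  · rw [one_mem_classes h, Finset.sum_singleton]
  · have h1 : q = 1 := by omega
    subst h1
    have h2 : classes 1 1 = {0} := by decide
    rw [h2, Finset.sum_singleton]
    unfold neg psi
    congr 3

/-- **All classes from one class**, for a fixed modulus. -/
theorem tfae (q : ℕ) [NeZero q] (y : ℝ) (hy : 1 / 2 ≤ y) (hy1 : y < 1) : List.TFAE [
    NoZeros q y,
    ∀ ε : ℝ, 0 < ε → ∃ C : ℝ, ∀ x : ℝ, 1 ≤ x → ∀ b : ℕ, b.Coprime q →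
      |psi x q b - x / q.totient| ≤ C * x ^ (y + ε),
    ∀ ε : ℝ, 0 < ε → ∀ᶠ X : ℝ in atTop, ∫ x in X..(2 * X), neg x q 1 ≤ X ^ (1 + y + ε),
    ∀ ε : ℝ, 0 < ε → ∀ᶠ X : ℝ in atTop, ∃ m : ℕ, 0 < m ∧ q ∣ m ∧
      ∫ x in X..(2 * X), ∑ b ∈ classes q m, neg x m b ≤ X ^ (1 + y + ε)] := by
  tfae_have 1 → 2 := fun h ε hε => direct q hy hy1 h hε
  tfae_have 2 → 3 := by
    intro h
    refine mean_of_bound q hy fun ε hε => ?_
    obtain ⟨C, hC⟩ := h ε hε
    refine ⟨C, fun x hx => ?_⟩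
    have h1 := (abs_le.1 (hC x hx 1 (by simp))).1
    linarith
  tfae_have 3 → 4 := by
    intro h ε hε
    filter_upwards [h ε hε] with X hX
    refine ⟨q, NeZero.pos q, dvd_rfl, ?_⟩
    simp only [classes_self_sum (NeZero.pos q)]
    exact hX
  tfae_have 4 → 1 := fun h => part2 q (by linarith) hy1.le h
  tfae_finish

theorem exists_diag {P : ℕ → ℝ → Prop} (h : ∀ j, ∀ᶠ X : ℝ in atTop, P j X) :
    ∃ J : ℝ → ℕ, (∀ k : ℕ, ∀ᶠ X : ℝ in atTop, k ≤ J X) ∧ ∀ᶠ X : ℝ in atTop, P (J X) X := by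
  classical
  simp only [eventually_atTop] at h
  choose A hA using h
  refine ⟨fun X => Nat.findGreatest (fun j => A j ≤ X) ⌊X⌋₊, fun k => ?_, ?_⟩
  · filter_upwards [eventually_ge_atTop (A k), eventually_ge_atTop (k : ℝ)] with X h1 h2
    exact Nat.le_findGreatest (Nat.le_floor h2) h1
  · filter_upwards [eventually_ge_atTop (A 0)] with X h1
    have h2 : A (Nat.findGreatest (fun j => A j ≤ X) ⌊X⌋₊) ≤ X :=
      Nat.findGreatest_spec (P := fun j => A j ≤ X) (m := 0) (Nat.zero_le _) h1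
    exact hA _ X h2

/-- **GRH and one modulus at each point** -/
theorem tfae_grh : List.TFAE [
    ∀ (k : ℕ) [NeZero k], NoZeros k (1 / 2),
    ∃ N : ℝ → ℕ, (∀ k : ℕ, 0 < k → ∀ᶠ X : ℝ in atTop, k ∣ N X) ∧
      ∀ ε : ℝ, 0 < ε → ∀ᶠ X : ℝ in atTop, 0 < N X ∧ (N X : ℝ) ≤ X ^ ε ∧
        ∀ x ∈ Set.Icc X (2 * X), ∀ b : ℕ, b.Coprime (N X) →
          |psi x (N X) b - x / (N X).totient| ≤ x ^ (1 / 2 + ε) / √(N X),
    ∃ N : ℝ → ℕ, (∀ k : ℕ, 0 < k → ∀ᶠ X : ℝ in atTop, k ∣ N X) ∧ (∀ᶠ X : ℝ in atTop, 0 < N X) ∧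
      ∀ k : ℕ, 0 < k → ∀ ε : ℝ, 0 < ε → ∀ᶠ X : ℝ in atTop,
        ∫ x in X..(2 * X), ∑ b ∈ classes k (N X), neg x (N X) b ≤ X ^ (3 / 2 + ε)] := by
  tfae_have 1 → 2 := by
    intro h
    have key : ∀ j : ℕ, ∀ᶠ X : ℝ in atTop, ((j.factorial : ℕ) : ℝ) ≤ X ^ (1 / ((j:ℝ) + 1)) ∧
        ∀ x ∈ Set.Icc X (2 * X), ∀ b : ℕ, b.Coprime j.factorial →
          |psi x j.factorial b - x / (j.factorial).totient| ≤
            x ^ (1 / 2 + 1 / ((j:ℝ) + 1)) / √((j.factorial : ℕ) : ℝ) := by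
      intro j
      have : NeZero j.factorial := ⟨j.factorial_ne_zero⟩
      have hj : 0 < 1 / ((j:ℝ) + 1) := by positivity
      obtain ⟨C, hC⟩ := direct j.factorial (y := 1 / 2) le_rfl (by norm_num) (h _) (ε := 1 / ((j:ℝ) + 1) / 2)
        (by positivity)
      have h1 : ∀ᶠ X : ℝ in atTop, ((j.factorial : ℕ) : ℝ) ≤ X ^ (1 / ((j:ℝ) + 1)) :=
        (tendsto_rpow_atTop hj).eventually_ge_atTop _
      have h2 : ∀ᶠ X : ℝ in atTop, C * √((j.factorial : ℕ) : ℝ) ≤ X ^ (1 / ((j:ℝ) + 1) / 2) :=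
        (tendsto_rpow_atTop (by positivity)).eventually_ge_atTop _
      filter_upwards [h1, h2, eventually_ge_atTop 1] with X h3 h4 h5
      refine ⟨h3, fun x hx b hb => ?_⟩
      have hx1 : 1 ≤ x := h5.trans hx.1
      have hx0 : 0 < x := by linarith
      refine (hC x hx1 b hb).trans ?_
      have hs : 0 < √((j.factorial : ℕ) : ℝ) := Real.sqrt_pos.2 (by exact_mod_cast j.factorial_pos)
      rw [le_div_iff₀ hs]
      have h6 : X ^ (1 / ((j:ℝ) + 1) / 2) ≤ x ^ (1 / ((j:ℝ) + 1) / 2) :=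
        Real.rpow_le_rpow (by linarith) hx.1 (by positivity)
      calc C * x ^ (1 / 2 + 1 / ((j:ℝ) + 1) / 2) * √((j.factorial : ℕ) : ℝ) =
            (C * √((j.factorial : ℕ) : ℝ)) * x ^ (1 / 2 + 1 / ((j:ℝ) + 1) / 2) := by ring
        _ ≤ x ^ (1 / ((j:ℝ) + 1) / 2) * x ^ (1 / 2 + 1 / ((j:ℝ) + 1) / 2) :=
            mul_le_mul_of_nonneg_right (h4.trans h6) (Real.rpow_nonneg hx0.le _)
        _ = _ := by
            rw [← Real.rpow_add hx0]
            congr 1; ring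
    obtain ⟨J, hJ1, hJ2⟩ := exists_diag key
    refine ⟨fun X => (J X).factorial, fun k hk => ?_, fun ε hε => ?_⟩
    · filter_upwards [hJ1 k] with X hX
      exact Nat.dvd_factorial hk hX
    · obtain ⟨k, hk⟩ := exists_nat_one_div_lt hε
      filter_upwards [hJ1 k, hJ2, eventually_ge_atTop 1] with X h1 h2 h3
      have h4 : 1 / (((J X : ℕ) : ℝ) + 1) ≤ ε := by
        refine le_trans ?_ hk.le
        refine one_div_le_one_div_of_le (by positivity) ?_
        have : (k:ℝ) ≤ (J X : ℕ) := by exact_mod_cast h1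
        linarith
      refine ⟨Nat.factorial_pos _, h2.1.trans (Real.rpow_le_rpow_of_exponent_le h3 h4), fun x hx b hb => ?_⟩
      refine (h2.2 x hx b hb).trans ?_
      refine div_le_div_of_nonneg_right ?_ (Real.sqrt_nonneg _)
      exact Real.rpow_le_rpow_of_exponent_le (h3.trans hx.1) (by linarith)
  tfae_have 2 → 3 := by
    rintro ⟨N, hN, h⟩
    refine ⟨N, hN, (h 1 one_pos).mono fun X hX => hX.1, fun k hk ε hε => ?_⟩
    have h4 : ∀ᶠ X : ℝ in atTop, (2:ℝ) ^ (1 / 2 + ε / 4) ≤ X ^ (ε / 4) :=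
      (tendsto_rpow_atTop (by linarith : 0 < ε / 4)).eventually_ge_atTop _
    filter_upwards [h (ε / 4) (by linarith), eventually_ge_atTop 1, h4] with X hX hX1 hX4
    obtain ⟨hm, hmX, hb⟩ := hX
    have hX0 : 0 < X := by linarith
    set m : ℕ := N X with hmdef
    have hm0 : (0:ℝ) < m := by exact_mod_cast hm
    have hsm : 0 < √(m:ℝ) := Real.sqrt_pos.2 hm0
    set E : ℝ := √(m:ℝ) * (2 * X) ^ (1 / 2 + ε / 4) with hE
    have h1 : ∀ x ∈ Set.Icc X (2 * X), ∑ b ∈ classes k m, neg x m b ≤ E := by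
      intro x hx
      have hx0 : 0 < x := lt_of_lt_of_le hX0 hx.1
      have h2 : ∀ b ∈ classes k m, neg x m b ≤ (2 * X) ^ (1 / 2 + ε / 4) / √m := by
        intro b hb1
        unfold classes at hb1
        rw [Finset.mem_filter] at hb1
        have h3 := (abs_le.1 (hb x hx b hb1.2.1)).1
        have h5 : x ^ (1 / 2 + ε / 4) / √m ≤ (2 * X) ^ (1 / 2 + ε / 4) / √m := by
          refine div_le_div_of_nonneg_right ?_ hsm.le
          exact Real.rpow_le_rpow hx0.le hx.2 (by linarith)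
        refine max_le ?_ (by positivity)
        linarith
      have h6 : (classes k m).card ≤ m := by
        unfold classes
        exact (Finset.card_filter_le _ _).trans (by simp)
      calc ∑ b ∈ classes k m, neg x m b ≤ ∑ b ∈ classes k m, (2 * X) ^ (1 / 2 + ε / 4) / √m :=
            Finset.sum_le_sum h2
        _ = (classes k m).card * ((2 * X) ^ (1 / 2 + ε / 4) / √m) := by
            rw [Finset.sum_const, nsmul_eq_mul]
        _ ≤ m * ((2 * X) ^ (1 / 2 + ε / 4) / √m) := by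
            refine mul_le_mul_of_nonneg_right ?_ (by positivity)
            exact_mod_cast h6
        _ = E := by
            rw [hE]
            have : (m:ℝ) = √(m:ℝ) * √(m:ℝ) := (Real.mul_self_sqrt hm0.le).symm
            field_simp
            rw [Real.sq_sqrt hm0.le]
    have h2 : ∫ x in X..(2 * X), ∑ b ∈ classes k m, neg x m b ≤ ∫ x in X..(2 * X), E := by
      refine intervalIntegral.integral_mono_on (by linarith) ?_ (by simp) h1
      exact sum_int k m (by linarith) (by linarith)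
    refine h2.trans ?_
    rw [intervalIntegral.integral_const, smul_eq_mul]
    have h3 : √(m:ℝ) ≤ X ^ ((ε / 4) / 2) := by
      rw [Real.sqrt_eq_rpow, show (ε / 4) / 2 = (ε / 4) * (1 / 2) by ring,
        Real.rpow_mul hX0.le]
      exact Real.rpow_le_rpow hm0.le hmX (by norm_num)
    have h5 : (2 * X) ^ (1 / 2 + ε / 4) ≤ X ^ (ε / 4) * X ^ (1 / 2 + ε / 4) := by
      rw [Real.mul_rpow (by norm_num) hX0.le]
      exact mul_le_mul_of_nonneg_right hX4 (Real.rpow_nonneg hX0.le _)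
    calc (2 * X - X) * E ≤ X * (X ^ ((ε / 4) / 2) * (X ^ (ε / 4) * X ^ (1 / 2 + ε / 4))) := by
          rw [hE, show 2 * X - X = X by ring]
          gcongr
      _ = X ^ (3 / 2 + 5 * ε / 8) := by
          rw [← Real.rpow_add hX0, ← Real.rpow_add hX0]
          nth_rewrite 1 [← Real.rpow_one X]
          rw [← Real.rpow_add hX0]
          congr 1; ring
      _ ≤ X ^ (3 / 2 + ε) := Real.rpow_le_rpow_of_exponent_le hX1 (by linarith)
  tfae_have 3 → 1 := by
    rintro ⟨N, hN, hN0, h⟩ k _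
    refine part2 k (by norm_num) (by norm_num) fun ε hε => ?_
    filter_upwards [h k (NeZero.pos k) ε hε, hN k (NeZero.pos k), hN0] with X h1 h2 h3
    refine ⟨N X, h3, h2, ?_⟩
    rw [show (1:ℝ) + 1 / 2 + ε = 3 / 2 + ε by ring]
    exact h1
  tfae_finish

end Pool.Agent.R429.OS
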