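import Pool.Agent.R429.OS.LD
import Pool.Agent.R429.OS.Cls
import Pool.Agent.H370R2.DirGood
import Pool.Agent.W190.Q306.A1

/-! Growth of Dirichlet L-functions and the generating functions of primes in a class. -/

set_option autoImplicit false

namespace Pool.Agent.R429.OS

open MeasureTheory Filter Topology Set Complex DirichletCharacter
open ArithmeticFunction.vonMangoldt (residueClass LFunctionResidueClassAux)
open Pool.Agent.H295R2 (Zs fz Zs_norm_le Zs_ne_zero_of_one_le zeta_bounds Zs_eq Zs_differentiable)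
open Pool.Agent.W190.Q306 (gz gz_bound Zs_one)

theorem norm_le_four {s : ℂ} (h1 : 1 / 4 ≤ s.re) (h2 : s.re ≤ 4) : ‖s‖ ≤ 4 + |s.im| := by
  refine (norm_le_abs_re_add_abs_im s).trans ?_
  rw [abs_of_pos (by linarith)]
  linarith

theorem good_Zs : Good Zs := by
  refine ⟨⟨125, 2, by norm_num, by norm_num, fun s h1 h2 => ?_⟩, ?_⟩
  · have h3 := Zs_norm_le h1
    have h4 := norm_le_four h1 h2
    rw [Real.rpow_two]
    have h5 := abs_nonneg s.im
    have h6 := norm_nonneg s
    have h7 : (‖s‖ + 1) ^ 2 ≤ (5 * (1 + |s.im|)) ^ 2 := by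
      refine pow_le_pow_left₀ (by positivity) (by linarith) 2
    nlinarith
  · obtain ⟨K, hK1, hK⟩ := zeta_bounds (a := 3 / 2) (by norm_num)
    refine ⟨1 / K, by positivity, fun s hs => ?_⟩
    have h1 := (hK s (by rw [hs]; norm_num)).2
    have h2 : 1 ≤ ‖s - 1‖ := by
      have := Complex.abs_re_le_norm (s - 1)
      rw [Complex.sub_re, hs, Complex.one_re] at this
      norm_num at this
      exact this
    have h3 : Zs s * fz s = s - 1 := by
      unfold fz
      have := Zs_ne_zero_of_one_le (s := s) (by rw [hs]; norm_num)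
      field_simp
    have h4 : ‖Zs s‖ * ‖fz s‖ = ‖s - 1‖ := by rw [← norm_mul, h3]
    rw [div_le_iff₀ (by linarith)]
    nlinarith [norm_nonneg (Zs s)]

theorem good_L {q : ℕ} [NeZero q] {χ : DirichletCharacter ℂ q} (h1 : χ ≠ 1) :
    Good (LFunction χ) := by
  refine ⟨⟨16 * (q + 1), 1, by positivity, zero_le_one, fun s hs hs4 => ?_⟩, ?_⟩
  · have hA : ∀ u : ℝ, ‖∑ k ∈ Finset.Icc 1 ⌊u⌋₊, χ (k : ZMod q)‖ ≤ (q + 1 : ℝ) :=
      fun u => H370.DL.norm_sum_Icc_le h1 _
    have hs0 : 0 < s.re := by linarith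
    have h4 := H370.DL.J_bound hA hs0
    rw [H370.DL.L_integral h1 hs0, norm_mul, Real.rpow_one]
    have h5 : ‖s‖ ≤ 4 * (1 + |s.im|) := by
      have := norm_le_four hs hs4
      have := abs_nonneg s.im
      linarith
    have h6 : ((q : ℝ) + 1) / s.re ≤ 4 * (q + 1) := by
      rw [div_le_iff₀ hs0]
      have : (0:ℝ) ≤ q := Nat.cast_nonneg q
      nlinarith
    calc _ ≤ (4 * (1 + |s.im|)) * (4 * (q + 1)) :=
          mul_le_mul h5 (h4.trans h6) (norm_nonneg _) (by positivity)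
      _ = _ := by ring
  · have hsum : Summable (fun n : ℕ => 1 / (n : ℝ) ^ 2) :=
      Real.summable_one_div_nat_pow.mpr (by norm_num)
    have hZ : 0 < ∑' n : ℕ, 1 / (n : ℝ) ^ 2 := by
      refine hsum.tsum_pos (fun n => by positivity) 1 (by norm_num)
    refine ⟨1 / (∑' n : ℕ, 1 / (n : ℝ) ^ 2), by positivity, fun s hs => ?_⟩
    have hre : (1 : ℝ) < s.re := by rw [hs]; norm_num
    rw [LFunction_eq_LSeries χ hre]
    have h1 := LSeries.mul_mu_eq_one χ hre
    have h2 : ‖_root_.LSeries ((fun n : ℕ => χ n) * fun n : ℕ => (ArithmeticFunction.moebius n : ℂ)) s‖ ≤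
        ∑' n : ℕ, 1 / (n : ℝ) ^ 2 := by
      unfold _root_.LSeries
      refine tsum_of_norm_bounded hsum.hasSum fun n => ?_
      rcases eq_or_ne n 0 with rfl | hn
      · simp
      · rw [LSeries.term_of_ne_zero hn, norm_div, norm_natCast_cpow_of_pos (Nat.pos_of_ne_zero hn)]
        simp only [Pi.mul_apply, norm_mul]
        rw [hs, show ((2 : ℝ) : ℝ) = ((2 : ℕ) : ℝ) by norm_num, Real.rpow_natCast]
        apply div_le_div_of_nonneg_right _ (by positivity)
        have a1 := DirichletCharacter.norm_le_one χ (n : ZMod q)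
        have a2 : ‖(ArithmeticFunction.moebius n : ℂ)‖ ≤ 1 := by
          have := ArithmeticFunction.abs_moebius_le_one (n := n)
          rw [Complex.norm_intCast]
          exact_mod_cast this
        calc _ ≤ (1 : ℝ) * 1 := mul_le_mul a1 a2 (norm_nonneg _) zero_le_one
          _ = 1 := one_mul 1
    have h3 : ‖_root_.LSeries (fun n : ℕ => χ n) s‖ *
        ‖_root_.LSeries ((fun n : ℕ => χ n) * fun n : ℕ => (ArithmeticFunction.moebius n : ℂ)) s‖ = 1 := by
      rw [← norm_mul, h1, norm_one]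
    rw [div_le_iff₀ hZ]
    calc (1 : ℝ) = _ := h3.symm
      _ ≤ _ := mul_le_mul_of_nonneg_left h2 (norm_nonneg _)

theorem norm_cpow_prime {p : ℕ} (hp : p.Prime) (s : ℂ) : ‖(p : ℂ) ^ (-s)‖ = (p : ℝ) ^ (-s.re) := by
  rw [norm_natCast_cpow_of_pos hp.pos, Complex.neg_re]

theorem good_E {p : ℕ} (hp : p.Prime) : Good (fun s => 1 - (p : ℂ) ^ (-s)) := by
  have hp2 : (2:ℝ) ≤ p := by exact_mod_cast hp.two_le
  refine ⟨⟨2, 0, by norm_num, le_rfl, fun s h1 _ => ?_⟩, 3 / 4, by norm_num, fun s hs => ?_⟩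
  · rw [Real.rpow_zero, mul_one]
    refine (norm_sub_le _ _).trans ?_
    rw [norm_one, norm_cpow_prime hp]
    have : (p : ℝ) ^ (-s.re) ≤ 1 := Real.rpow_le_one_of_one_le_of_nonpos (by linarith) (by linarith)
    linarith
  · have h1 := norm_sub_norm_le (1 : ℂ) ((p : ℂ) ^ (-s))
    rw [norm_one, norm_cpow_prime hp, hs] at h1
    have h2 : (p : ℝ) ^ (-(2:ℝ)) ≤ 1 / 4 := by
      rw [Real.rpow_neg (by linarith), Real.rpow_two, ← one_div]
      refine one_div_le_one_div_of_le (by norm_num) ?_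
      nlinarith
    linarith

theorem triv_eq (q : ℕ) [NeZero q] (s : ℂ) : LFunctionTrivChar₁ q s =
    (∏ p ∈ q.primeFactors, (1 - (p : ℂ) ^ (-s))) * Zs s := by
  by_cases hs : s = 1
  · subst hs
    rw [Zs_one, mul_one, LFunctionTrivChar₁, Function.update_self]
    refine Finset.prod_congr rfl fun p _ => ?_
    rw [cpow_neg_one]
  · rw [LFunctionTrivChar₁, Function.update_of_ne hs, LFunctionTrivChar_eq_mul_riemannZeta hs, ← Zs_eq hs]
    ring

theorem good_triv (q : ℕ) [NeZero q] : Good (LFunctionTrivChar₁ q) := by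
  have h1 : LFunctionTrivChar₁ q = fun s => (∏ p ∈ q.primeFactors, (1 - (p : ℂ) ^ (-s))) * Zs s := by
    funext s
    exact triv_eq q s
  rw [h1]
  exact (Good.prod _ fun p hp => good_E (Nat.prime_of_mem_primeFactors hp)).mul good_Zs

variable (q : ℕ) [NeZero q]

theorem triv_zf {y : ℝ} (hz : NoZeros q y) {s : ℂ} (hs : y < s.re) : LFunctionTrivChar₁ q s ≠ 0 := by
  by_cases h1 : s = 1
  · subst h1
    exact LFunctionTrivChar₁_apply_one_ne_zero _
  · rw [LFunctionTrivChar₁, Function.update_of_ne h1]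
    exact mul_ne_zero (sub_ne_zero.2 h1) (hz 1 s hs (Or.inl h1))

theorem Zs_zf {y : ℝ} (hz : NoZeros q y) {s : ℂ} (hs : y < s.re) : Zs s ≠ 0 := by
  intro h
  apply triv_zf q hz hs
  rw [triv_eq, h, mul_zero]

/-- the generating function of `φ(q)Λ(n)1_{n = a} - 1`, continued -/
noncomputable def FF (a : ZMod q) (s : ℂ) : ℂ :=
  (q.totient : ℂ) * LFunctionResidueClassAux a s - dslope Zs 1 s

theorem dslope_diff : Differentiable ℂ (dslope Zs 1) := by
  have := (Complex.differentiableOn_dslope (f := Zs) (s := univ) (c := 1) univ_mem).2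
    Zs_differentiable.differentiableOn
  exact differentiableOn_univ.1 this

open scoped Classical in
theorem FF_eq (a : ZMod q) (s : ℂ) : FF q a s = (-(deriv (LFunctionTrivChar₁ q) s / LFunctionTrivChar₁ q s) -
    ∑ χ ∈ ({1}ᶜ : Finset (DirichletCharacter ℂ q)), χ a⁻¹ * (deriv (LFunction χ) s / LFunction χ s)) -
      dslope Zs 1 s := by
  have h0 : (q.totient : ℂ) ≠ 0 := by
    exact_mod_cast (Nat.totient_pos.2 (NeZero.pos q)).ne'
  unfold FF LFunctionResidueClassAux
  rw [mul_inv_cancel_left₀ h0, neg_div]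
  simp only [mul_div_assoc]
  refine congrArg₂ (· - ·) (congrArg₂ (· - ·) rfl (Finset.sum_congr ?_ fun _ _ => rfl)) rfl
  ext χ
  simp only [Finset.mem_compl, Finset.mem_singleton]

theorem FF_diff (a : ZMod q) {y : ℝ} (hz : NoZeros q y) {s : ℂ} (hs : y < s.re) :
    DifferentiableAt ℂ (FF q a) s := by
  classical
  have h1 : FF q a = fun s => (-(deriv (LFunctionTrivChar₁ q) s / LFunctionTrivChar₁ q s) -
    ∑ χ ∈ ({1}ᶜ : Finset (DirichletCharacter ℂ q)), χ a⁻¹ * (deriv (LFunction χ) s / LFunction χ s)) -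
      dslope Zs 1 s := by
    funext s
    exact FF_eq q a s
  rw [h1]
  have hld : ∀ G : ℂ → ℂ, Differentiable ℂ G → G s ≠ 0 → DifferentiableAt ℂ (fun s => deriv G s / G s) s := by
    intro G hG h0
    have h2 : DifferentiableAt ℂ (deriv G) s := (hG.analyticAt s).deriv.differentiableAt
    exact h2.div (hG s) h0
  refine DifferentiableAt.sub (DifferentiableAt.sub ?_ ?_) (dslope_diff s)
  · exact (hld _ (differentiable_LFunctionTrivChar₁ q) (triv_zf q hz hs)).neg
  · refine DifferentiableAt.fun_sum fun χ hχ => ?_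
    have h3 : χ ≠ 1 := by simpa using hχ
    exact (hld _ (differentiable_LFunction h3) (hz χ s hs (Or.inr h3))).const_mul _

theorem FF_bound {y σ ε : ℝ} (hy : 1 / 4 ≤ y) (hz : NoZeros q y) (hσ : y < σ) (hσ1 : σ ≤ 1) (hε : 0 < ε) :
    ∃ C : ℝ, 0 < C ∧ ∀ (a : ZMod q) (s : ℂ), σ ≤ s.re → s.re ≤ 2 → ‖FF q a s‖ ≤ C * (1 + |s.im|) ^ ε := by
  classical
  obtain ⟨C1, h10, h1⟩ := logder_bound (differentiable_LFunctionTrivChar₁ q) (good_triv q) hy
    (fun s hs => triv_zf q hz hs) hσ hσ1 hε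
  obtain ⟨C2, h20, h2⟩ := logder_bound Zs_differentiable good_Zs hy (fun s hs => Zs_zf q hz hs) hσ hσ1 hε
  obtain ⟨C3, h30, h3⟩ := gz_bound hy (fun s hs => Zs_zf q hz hs) hσ hσ1 hε
  have h4 : ∀ χ : DirichletCharacter ℂ q, χ ≠ 1 → ∃ C : ℝ, 0 < C ∧ ∀ s : ℂ, σ ≤ s.re → s.re ≤ 2 →
      ‖deriv (LFunction χ) s / LFunction χ s‖ ≤ C * (1 + |s.im|) ^ ε := fun χ hχ =>
    logder_bound (differentiable_LFunction hχ) (good_L hχ) hy (fun s hs => hz χ s hs (Or.inr hχ)) hσ hσ1 hε
  choose! C4 h40 h4 using h4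
  refine ⟨C1 + ∑ χ ∈ ({1}ᶜ : Finset (DirichletCharacter ℂ q)), C4 χ + (C3 + C2), ?_, fun a s hs1 hs2 => ?_⟩
  · have : 0 ≤ ∑ χ ∈ ({1}ᶜ : Finset (DirichletCharacter ℂ q)), C4 χ :=
      Finset.sum_nonneg fun χ hχ => (h40 χ (by simpa using hχ)).le
    linarith
  · rw [FF_eq]
    set T : ℝ := (1 + |s.im|) ^ ε with hT
    have e1 : ‖-(deriv (LFunctionTrivChar₁ q) s / LFunctionTrivChar₁ q s)‖ ≤ C1 * T := by
      rw [norm_neg]; exact h1 s hs1 hs2
    have e2 : ‖∑ χ ∈ ({1}ᶜ : Finset (DirichletCharacter ℂ q)),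
        χ a⁻¹ * (deriv (LFunction χ) s / LFunction χ s)‖ ≤
        (∑ χ ∈ ({1}ᶜ : Finset (DirichletCharacter ℂ q)), C4 χ) * T := by
      rw [Finset.sum_mul]
      refine norm_sum_le_of_le _ fun χ hχ => ?_
      have h3 : χ ≠ 1 := by simpa using hχ
      rw [norm_mul]
      have h5 := DirichletCharacter.norm_le_one χ a⁻¹
      have h6 := h4 χ h3 s hs1 hs2
      calc _ ≤ 1 * (C4 χ * T) := mul_le_mul h5 h6 (norm_nonneg _) zero_le_one
        _ = _ := one_mul _
    have e3 : ‖dslope Zs 1 s‖ ≤ (C3 + C2) * T := by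
      have h5 : dslope Zs 1 s = -gz s - deriv Zs s / Zs s := by
        unfold gz; ring
      rw [h5, add_mul]
      refine (norm_sub_le _ _).trans ?_
      rw [norm_neg]
      exact add_le_add (h3 s hs1 hs2) (h2 s hs1 hs2)
    calc _ ≤ _ := (norm_sub_le _ _).trans (add_le_add ((norm_sub_le _ _).trans (add_le_add e1 e2)) e3)
      _ = _ := by ring

/-- `φ(q)Λ(n)1_{n = a} - 1` -/
noncomputable def ac (a : ZMod q) (n : ℕ) : ℝ := if n = 0 then 0 else (q.totient : ℝ) * residueClass a n - 1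

theorem rc_summable (a : ZMod q) {s : ℂ} (hs : 1 < s.re) :
    LSeriesSummable (fun n => ((residueClass a n : ℝ) : ℂ)) s := by
  refine LSeriesSummable_of_abscissaOfAbsConv_lt_re ?_
  exact (ArithmeticFunction.vonMangoldt.abscissaOfAbsConv_residueClass_le_one a).trans_lt
    (by exact_mod_cast hs)

theorem ac_series {a : ZMod q} (ha : IsUnit a) {s : ℂ} (hs : 1 < s.re) :
    LSeries (fun n => (ac q a n : ℂ)) s = FF q a s := by
  have h0 : (q.totient : ℂ) ≠ 0 := by
    exact_mod_cast (Nat.totient_pos.2 (NeZero.pos q)).ne'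
  have hs1 : s ≠ 1 := by rintro rfl; simp at hs
  have hs2 : s - 1 ≠ 0 := sub_ne_zero.2 hs1
  have h1 := rc_summable q a hs
  have h2 : LSeriesSummable (fun _ => (1:ℂ)) s :=
    LSeriesSummable_of_bounded_of_one_lt_re (m := 1) (fun n _ => by simp) hs
  have e1 := ArithmeticFunction.vonMangoldt.eqOn_LFunctionResidueClassAux ha
    (show s ∈ {s : ℂ | 1 < s.re} from hs)
  simp only at e1
  have e2 : LSeries (fun _ => (1:ℂ)) s = riemannZeta s := LSeries_one_eq_riemannZeta hs
  have h3 : LSeriesSummable ((q.totient : ℂ) • fun n => ((residueClass a n : ℝ) : ℂ)) s := h1.smul _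
  have e3 : LSeries ((q.totient : ℂ) • fun n => ((residueClass a n : ℝ) : ℂ)) s =
      (q.totient : ℂ) * LSeries (fun n => ((residueClass a n : ℝ) : ℂ)) s := by
    rw [LSeries_smul]
  have e4 : LSeries (fun n => (ac q a n : ℂ)) s =
      LSeries ((q.totient : ℂ) • fun n => ((residueClass a n : ℝ) : ℂ)) s - LSeries (fun _ => (1:ℂ)) s := by
    rw [← LSeries_sub h3 h2]
    refine LSeries_congr (fun {n} hn => ?_) s
    simp only [ac, if_neg hn, Pi.sub_apply, Pi.smul_apply, smul_eq_mul]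
    push_cast
    rfl
  rw [e4, e3, e2]
  unfold FF
  rw [e1, dslope_of_ne _ hs1, slope_def_field, Zs_one, ← Zs_eq hs1]
  field_simp
  ring

theorem ac_abs_le (a : ZMod q) (n : ℕ) : |ac q a n| ≤ (q.totient : ℝ) * ArithmeticFunction.vonMangoldt n + 1 := by
  unfold ac
  have h1 := ArithmeticFunction.vonMangoldt_nonneg (n := n)
  have h2 : (0:ℝ) ≤ q.totient := Nat.cast_nonneg _
  split_ifs with h
  · rw [abs_zero]; positivity
  · have h3 := ArithmeticFunction.vonMangoldt.residueClass_nonneg a n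
    have h4 := ArithmeticFunction.vonMangoldt.residueClass_le a n
    have h5 : (q.totient : ℝ) * residueClass a n ≤ q.totient * ArithmeticFunction.vonMangoldt n :=
      mul_le_mul_of_nonneg_left h4 h2
    have h6 : 0 ≤ (q.totient : ℝ) * residueClass a n := by positivity
    rw [abs_le]
    constructor <;> linarith

theorem ac_summable (a : ZMod q) : Summable (fun n : ℕ => ‖((ac q a n : ℝ) : ℂ)‖ * (1 / (n : ℝ) ^ 2)) := by
  have h1 : LSeriesSummable (fun n => ((ArithmeticFunction.vonMangoldt n : ℝ) : ℂ)) 2 :=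
    ArithmeticFunction.LSeriesSummable_vonMangoldt (by norm_num)
  have h2 : Summable (fun n : ℕ => 1 / (n : ℝ) ^ 2) := Real.summable_one_div_nat_pow.2 (by norm_num)
  refine Summable.of_nonneg_of_le (fun n => by positivity) (fun n => ?_)
    ((h1.norm.mul_left (q.totient : ℝ)).add h2)
  rw [LSeries.norm_term_eq, Complex.norm_real, Real.norm_eq_abs]
  have h3 := ac_abs_le q a n
  by_cases hn : n = 0
  · simp [hn, ac]
  · rw [if_neg hn, Complex.norm_real, Real.norm_eq_abs,
      abs_of_nonneg ArithmeticFunction.vonMangoldt_nonneg]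
    have e : (n : ℝ) ^ (2:ℂ).re = (n:ℝ) ^ 2 := by
      simp
    rw [e]
    calc |ac q a n| * (1 / (n:ℝ) ^ 2) ≤ ((q.totient : ℝ) * ArithmeticFunction.vonMangoldt n + 1) * (1 / (n:ℝ) ^ 2) :=
          mul_le_mul_of_nonneg_right h3 (by positivity)
      _ = _ := by ring

end Pool.Agent.R429.OS
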