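import Pool.Agent.H295R2.L

/-! Logarithmic derivatives in zero-free half planes. -/

set_option autoImplicit false

open MeasureTheory Filter Topology Set Metric

namespace Pool.Agent.R429.OS

open Pool.Agent.H295R2

/-- polynomial growth in a half plane, and a lower bound on `Re s = 2` -/
def Good (f : ℂ → ℂ) : Prop :=
  (∃ K A : ℝ, 0 < K ∧ 0 ≤ A ∧ ∀ s : ℂ, 1 / 4 ≤ s.re → s.re ≤ 4 → ‖f s‖ ≤ K * (1 + |s.im|) ^ A) ∧
  (∃ c : ℝ, 0 < c ∧ ∀ s : ℂ, s.re = 2 → c ≤ ‖f s‖)

theorem Good.mul {f g : ℂ → ℂ} (hf : Good f) (hg : Good g) : Good (fun s => f s * g s) := by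
  obtain ⟨⟨K1, A1, hK1, hA1, h1⟩, c1, hc1, l1⟩ := hf
  obtain ⟨⟨K2, A2, hK2, hA2, h2⟩, c2, hc2, l2⟩ := hg
  refine ⟨⟨K1 * K2, A1 + A2, by positivity, by positivity, fun s hs hs' => ?_⟩,
    c1 * c2, by positivity, fun s hs => ?_⟩
  · rw [norm_mul, Real.rpow_add (by positivity)]
    calc ‖f s‖ * ‖g s‖ ≤ (K1 * (1 + |s.im|) ^ A1) * (K2 * (1 + |s.im|) ^ A2) :=
          mul_le_mul (h1 s hs hs') (h2 s hs hs') (norm_nonneg _) (by positivity)
      _ = _ := by ring
  · rw [norm_mul]
    exact mul_le_mul (l1 s hs) (l2 s hs) hc2.le (norm_nonneg _)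

theorem Good.prod {ι : Type*} (S : Finset ι) {f : ι → ℂ → ℂ} (h : ∀ i ∈ S, Good (f i)) :
    Good (fun s => ∏ i ∈ S, f i s) := by
  classical
  induction S using Finset.induction_on with
  | empty =>
    refine ⟨⟨1, 0, one_pos, le_rfl, fun s _ _ => by simp⟩, 1, one_pos, fun s _ => by simp⟩
  | insert a S ha ih =>
    simp_rw [Finset.prod_insert ha]
    exact (h a (Finset.mem_insert_self _ _)).mul (ih fun i hi => h i (Finset.mem_insert_of_mem hi))

/-- the logarithmic derivative is small in a zero-free half plane -/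
theorem logder_bound {G : ℂ → ℂ} (hG : Differentiable ℂ G) (hgood : Good G) {θ σ ε : ℝ} (hθ : 1 / 4 ≤ θ)
    (hz : ∀ s : ℂ, θ < s.re → G s ≠ 0) (hσ : θ < σ) (hσ1 : σ ≤ 1) (hε : 0 < ε) :
    ∃ C : ℝ, 0 < C ∧ ∀ s : ℂ, σ ≤ s.re → s.re ≤ 2 → ‖deriv G s / G s‖ ≤ C * (1 + |s.im|) ^ ε := by
  obtain ⟨⟨K, A, hK, hA, hgr⟩, c₀, hc₀, hlow⟩ := hgood
  set R : ℝ := 2 - (θ + σ) / 2 with hR
  set R' : ℝ := 2 - (θ + 3 * σ) / 4 with hR'
  have hRR' : R' < R := by rw [hR, hR']; linarith
  have hR'1 : 1 < R' := by rw [hR']; linarith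
  have hrR' : 2 - σ < R' := by rw [hR']; linarith
  have hR1 : 1 < R := by linarith
  have hR2 : R < 2 := by rw [hR]; linarith
  set B : ℝ := |Real.log c₀| + 4 with hB
  have hB4 : 4 ≤ B := by rw [hB]; linarith [abs_nonneg (Real.log c₀)]
  set D : ℝ := (2 * R' + B * (R + R')) / (R - R') with hD
  have hD0 : 0 < D := by
    have : 0 < R - R' := by linarith
    positivity
  set r : ℝ := R' - (2 - σ) with hr
  have hr0 : 0 < r := by rw [hr]; linarith
  set K1 : ℝ := K + 2 with hK1
  have hlogK1 : 0 < Real.log K1 := Real.log_pos (by rw [hK1]; linarith)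
  have main : ∀ s : ℂ, σ ≤ s.re → s.re ≤ 2 →
      ‖deriv G s / G s‖ ≤ D * (1 + (Real.log K1 + A * Real.log (|s.im| + 3))) / r := by
    intro s hs1 hs2
    set t : ℝ := s.im with htdef
    set c : ℂ := ⟨2, t⟩ with hc
    set f0 : ℂ → ℂ := fun z => G (c + z) with hf0
    have hcre : c.re = 2 := rfl
    have hcim : c.im = t := rfl
    have hgeo : ∀ z ∈ ball (0:ℂ) R, (θ + σ) / 2 < (c + z).re ∧ (c + z).re ≤ 4 ∧ |(c+z).im| ≤ |t| + 2 := by
      intro z hz'
      rw [mem_ball_zero_iff] at hz'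
      have h1 := Complex.abs_re_le_norm z
      have h2 := Complex.abs_im_le_norm z
      have h5 : |z.im| ≤ 2 := by linarith
      have h6 : |z.re| < R := lt_of_le_of_lt h1 hz'
      have h7 := abs_lt.1 h6
      rw [Complex.add_re, Complex.add_im, hcre, hcim]
      refine ⟨?_, ?_, ?_⟩
      · have := h7.1
        rw [hR] at this
        linarith
      · linarith [h7.2]
      · have := abs_add_le t z.im
        linarith
    have hf0d : DifferentiableOn ℂ f0 (ball 0 R) :=
      (hG.comp ((differentiable_const c).add differentiable_id)).differentiableOn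
    have hf0ne : ∀ z ∈ ball (0:ℂ) R, f0 z ≠ 0 := by
      intro z hz'
      exact hz _ (by have := (hgeo z hz').1; linarith)
    obtain ⟨L, hLd, hLexp, hL0⟩ := exists_log_ball (by linarith) hf0d hf0ne
    have hLre : ∀ z ∈ ball (0:ℂ) R, (L z).re = Real.log ‖f0 z‖ := by
      intro z hz'
      rw [← hLexp z hz', Complex.norm_exp, Real.log_exp]
    set M : ℝ := Real.log K1 + A * Real.log (|t| + 3) with hM
    have hlogt : 0 ≤ Real.log (|t| + 3) := Real.log_nonneg (by linarith [abs_nonneg t])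
    have hMpos : 0 < M := by rw [hM]; positivity
    have hup : ∀ z ∈ ball (0:ℂ) R, Real.log ‖f0 z‖ ≤ M := by
      intro z hz'
      obtain ⟨g1, g2, g3⟩ := hgeo z hz'
      have h1 := hgr (c + z) (by linarith) g2
      have h2 : K * (1 + |(c + z).im|) ^ A ≤ K1 * (|t| + 3) ^ A := by
        have h3 : 1 + |(c + z).im| ≤ |t| + 3 := by linarith
        have h4 : K ≤ K1 := by rw [hK1]; linarith
        gcongr
      have hf0pos : 0 < ‖f0 z‖ := norm_pos_iff.mpr (hf0ne z hz')
      have h3 : Real.log ‖f0 z‖ ≤ Real.log (K1 * (|t| + 3) ^ A) :=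
        Real.log_le_log hf0pos (h1.trans h2)
      have hK10 : K1 ≠ 0 := by rw [hK1]; linarith
      rw [Real.log_mul hK10 (by positivity), Real.log_rpow (by positivity)] at h3
      exact h3
    have hupper : MapsTo L (ball 0 R) {z | z.re ≤ M} := by
      intro z hz'
      change (L z).re ≤ M
      rw [hLre z hz']
      exact hup z hz'
    have h00 : (0:ℂ) ∈ ball (0:ℂ) R := mem_ball_self (by linarith)
    have hL00 : ‖L 0‖ ≤ B * (1 + M) := by
      rw [hL0]
      have h1 : ‖Complex.log (f0 0)‖ ≤ |(Complex.log (f0 0)).re| + |(Complex.log (f0 0)).im| :=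
        Complex.norm_le_abs_re_add_abs_im _
      have h2 : |(Complex.log (f0 0)).im| ≤ 4 := by
        rw [Complex.log_im]
        exact (Complex.abs_arg_le_pi _).trans (by linarith [Real.pi_lt_d2])
      have h3 : |(Complex.log (f0 0)).re| ≤ |Real.log c₀| + M := by
        rw [Complex.log_re, abs_le]
        have a1 := hup 0 h00
        have a2 : Real.log c₀ ≤ Real.log ‖f0 0‖ := by
          refine Real.log_le_log hc₀ (hlow _ ?_)
          rw [add_zero]
        have a3 := neg_abs_le (Real.log c₀)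
        have a4 := abs_nonneg (Real.log c₀)
        constructor <;> linarith
      have h4 : |Real.log c₀| + M + 4 ≤ B * (1 + M) := by
        rw [hB]
        nlinarith [abs_nonneg (Real.log c₀)]
      linarith
    have hBC : ∀ z : ℂ, ‖z‖ ≤ R' → ‖L z‖ ≤ D * (1 + M) := by
      intro z hz'
      have hzR : z ∈ ball (0:ℂ) R := by rw [mem_ball_zero_iff]; linarith
      have h1 := Complex.borelCaratheodory hMpos hLd hupper (by linarith) hzR
      refine h1.trans ?_
      have hd1 : 0 < R - R' := by linarith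
      have hd2 : R - R' ≤ R - ‖z‖ := by linarith
      have e1 : 2 * M * ‖z‖ / (R - ‖z‖) ≤ 2 * (1 + M) * R' / (R - R') := by
        have : 0 ≤ 2 * (1 + M) * R' := by positivity
        have h5 : 2 * M * ‖z‖ ≤ 2 * (1 + M) * R' := by
          have := norm_nonneg z
          nlinarith
        gcongr
      have e2 : ‖L 0‖ * (R + ‖z‖) / (R - ‖z‖) ≤ (B * (1 + M)) * (R + R') / (R - R') := by
        gcongr
      have e3 : D * (1 + M) = 2 * (1 + M) * R' / (R - R') + (B * (1 + M)) * (R + R') / (R - R') := by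
        rw [hD]; ring
      rw [e3]
      exact add_le_add e1 e2
    set z : ℂ := ((s.re - 2 : ℝ) : ℂ) with hzdef
    have hcz : c + z = s := by
      apply Complex.ext
      · rw [Complex.add_re, hcre, hzdef, Complex.ofReal_re]; ring
      · rw [Complex.add_im, hcim, hzdef, Complex.ofReal_im, add_zero]
    have hznorm : ‖z‖ = 2 - s.re := by
      rw [hzdef, Complex.norm_real, Real.norm_eq_abs, abs_of_nonpos (by linarith)]; ring
    have hzR' : ‖z‖ ≤ R' := by rw [hznorm]; linarith
    have hzR : z ∈ ball (0:ℂ) R := by rw [mem_ball_zero_iff, hznorm]; linarith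
    have hdL : deriv L z = deriv G s / G s := by
      have hev : f0 =ᶠ[𝓝 z] fun w => Complex.exp (L w) := by
        filter_upwards [isOpen_ball.mem_nhds hzR] with w hw
        exact (hLexp w hw).symm
      have h1 : HasDerivAt L (deriv L z) z := (hLd.differentiableAt (isOpen_ball.mem_nhds hzR)).hasDerivAt
      have h2 : deriv f0 z = Complex.exp (L z) * deriv L z := by
        rw [hev.deriv_eq]; exact h1.cexp.deriv
      have h3 : HasDerivAt f0 (deriv G s) z := by
        have h4 : HasDerivAt G (deriv G s) (c + z) := by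
          rw [hcz]; exact (hG s).hasDerivAt
        simpa using h4.comp_const_add c z
      have h6 : Complex.exp (L z) = G s := by
        rw [hLexp z hzR, hf0]; simp only; rw [hcz]
      rw [h3.deriv, h6] at h2
      have h7 : G s ≠ 0 := by rw [← hcz]; exact hf0ne z hzR
      rw [h2]
      field_simp
    have hdLb : ‖deriv L z‖ ≤ D * (1 + M) / r := by
      apply Complex.norm_deriv_le_of_forall_mem_sphere_norm_le hr0
      · refine DifferentiableOn.diffContOnCl ?_
        refine hLd.mono ?_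
        intro w hw
        have hw' := closure_ball_subset_closedBall hw
        rw [mem_closedBall, dist_eq_norm] at hw'
        rw [mem_ball_zero_iff]
        have : ‖w‖ ≤ ‖w - z‖ + ‖z‖ := by
          calc ‖w‖ = ‖(w - z) + z‖ := by ring_nf
            _ ≤ _ := norm_add_le _ _
        rw [hznorm] at this
        rw [hr] at hw'
        linarith
      · intro w hw
        rw [mem_sphere, dist_eq_norm] at hw
        apply hBC
        have : ‖w‖ ≤ ‖w - z‖ + ‖z‖ := by
          calc ‖w‖ = ‖(w - z) + z‖ := by ring_nf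
            _ ≤ _ := norm_add_le _ _
        rw [hznorm, hw, hr] at this
        linarith
    rw [← hdL]
    exact hdLb
  refine ⟨D * (1 + (Real.log K1 + A * (3 ^ ε / ε))) / r, by positivity, fun s hs1 hs2 => ?_⟩
  refine (main s hs1 hs2).trans ?_
  have hge : (1:ℝ) ≤ (1 + |s.im|) ^ ε := Real.one_le_rpow (by linarith [abs_nonneg s.im]) hε.le
  have h6 : Real.log (|s.im| + 3) ≤ 3 ^ ε / ε * (1 + |s.im|) ^ ε := by
    have h4 : |s.im| + 3 ≤ 3 * (1 + |s.im|) := by linarith [abs_nonneg s.im]
    have hp : 0 ≤ |s.im| + 3 := by positivity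
    have h5 : (|s.im| + 3) ^ ε ≤ 3 ^ ε * (1 + |s.im|) ^ ε := by
      rw [← Real.mul_rpow (by norm_num) (by positivity)]
      gcongr
    calc Real.log (|s.im| + 3) ≤ (|s.im| + 3) ^ ε / ε := Real.log_le_rpow_div hp hε
      _ ≤ (3 ^ ε * (1 + |s.im|) ^ ε) / ε := by gcongr
      _ = _ := by ring
  have h7 : 1 + (Real.log K1 + A * Real.log (|s.im| + 3)) ≤
      (1 + (Real.log K1 + A * (3 ^ ε / ε))) * (1 + |s.im|) ^ ε := by
    have h8 : A * Real.log (|s.im| + 3) ≤ A * (3 ^ ε / ε * (1 + |s.im|) ^ ε) :=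
      mul_le_mul_of_nonneg_left h6 hA
    nlinarith
  calc D * (1 + (Real.log K1 + A * Real.log (|s.im| + 3))) / r
      ≤ D * ((1 + (Real.log K1 + A * (3 ^ ε / ε))) * (1 + |s.im|) ^ ε) / r := by gcongr
    _ = _ := by ring

end Pool.Agent.R429.OS
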