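import Pool.Agent.R429.OS.Dir

/-! The one-sided bound in mean. -/

set_option autoImplicit false

namespace Pool.Agent.R429.OS

open MeasureTheory Filter Topology Set Complex DirichletCharacter
open ArithmeticFunction.vonMangoldt (residueClass LFunctionResidueClassAux)
open Pool.Agent.W263.BSD (LInt lapC lapC_differentiableAt lap lapC_ofReal lap_nonneg)

/-- integrability from dyadic means -/
theorem dyadic {n : ℝ → ℝ} (hm : Measurable n) (h0 : ∀ x, 0 ≤ n x) (h1 : ∀ x, 1 ≤ x → n x ≤ x) {b w : ℝ}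
    (hb : 0 < b) (hbw : b < w)
    (h : ∀ᶠ X : ℝ in atTop, ∫ x in X..(2 * X), n x ≤ X ^ (1 + b)) :
    IntegrableOn (fun x => n x * x ^ (-(w + 1))) (Ioi 1) := by
  have hw : 0 < w := hb.trans hbw
  set F : ℝ → ℝ := fun x => n x * x ^ (-(w + 1)) with hF
  have hFm : Measurable F := hm.mul (by fun_prop)
  have hF0 : ∀ x, 1 ≤ x → 0 ≤ F x := fun x hx => mul_nonneg (h0 x) (Real.rpow_nonneg (by linarith) _)
  have hF1 : ∀ x, 1 ≤ x → F x ≤ 1 := by
    intro x hx
    have hx0 : 0 < x := by linarith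
    calc F x ≤ x * x ^ (-(w + 1)) := mul_le_mul_of_nonneg_right (h1 x hx) (Real.rpow_nonneg hx0.le _)
      _ = x ^ (-w) := by
        rw [show x * x ^ (-(w + 1)) = x ^ (1 : ℝ) * x ^ (-(w + 1)) by rw [Real.rpow_one],
          ← Real.rpow_add hx0]
        congr 1; ring
      _ ≤ 1 := Real.rpow_le_one_of_one_le_of_nonpos hx (by linarith)
  have hint : ∀ a c : ℝ, 1 ≤ a → a ≤ c → IntervalIntegrable F volume a c := by
    intro a c ha hac
    rw [intervalIntegrable_iff_integrableOn_Ioc_of_le hac]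
    refine Measure.integrableOn_of_bounded (M := 1) (by simp) hFm.aestronglyMeasurable ?_
    refine (ae_restrict_iff' measurableSet_Ioc).2 (Eventually.of_forall fun x hx => ?_)
    have : 1 ≤ x := ha.trans hx.1.le
    rw [Real.norm_of_nonneg (hF0 x this)]
    exact hF1 x this
  have hnint : ∀ a c : ℝ, 1 ≤ a → a ≤ c → IntervalIntegrable n volume a c := by
    intro a c ha hac
    rw [intervalIntegrable_iff_integrableOn_Ioc_of_le hac]
    refine Measure.integrableOn_of_bounded (M := c) (by simp) hm.aestronglyMeasurable ?_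
    refine (ae_restrict_iff' measurableSet_Ioc).2 (Eventually.of_forall fun x hx => ?_)
    rw [Real.norm_of_nonneg (h0 x)]
    exact (h1 x (ha.trans hx.1.le)).trans hx.2
  set t : ℕ → ℝ := fun k => ∫ x in (2:ℝ) ^ k..(2:ℝ) ^ (k + 1), F x with ht
  have hp : ∀ k : ℕ, (1:ℝ) ≤ 2 ^ k := fun k => one_le_pow₀ (by norm_num)
  have hpp : ∀ k : ℕ, (2:ℝ) ^ k ≤ 2 ^ (k + 1) := fun k => pow_le_pow_right₀ (by norm_num) (by omega)
  have ht0 : ∀ k, 0 ≤ t k := fun k =>
    intervalIntegral.integral_nonneg (hpp k) fun x hx => hF0 x ((hp k).trans hx.1)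
  set r : ℝ := (2:ℝ) ^ (-(w - b)) with hr
  have hr0 : 0 ≤ r := by positivity
  have hr1 : r < 1 := by
    rw [hr]
    exact Real.rpow_lt_one_of_one_lt_of_neg (by norm_num) (by linarith)
  have htr : ∀ᶠ k : ℕ in atTop, ‖t k‖ ≤ r ^ k := by
    have h2 : Tendsto (fun k : ℕ => (2:ℝ) ^ k) atTop atTop := tendsto_pow_atTop_atTop_of_one_lt (by norm_num)
    filter_upwards [h2.eventually h] with k hk
    rw [Real.norm_of_nonneg (ht0 k)]
    have hk0 : (0:ℝ) < 2 ^ k := by positivity
    have e1 : t k ≤ ∫ x in (2:ℝ) ^ k..(2:ℝ) ^ (k + 1), n x * ((2:ℝ) ^ k) ^ (-(w + 1)) := by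
      refine intervalIntegral.integral_mono_on (hpp k) (hint _ _ (hp k) (hpp k))
        ((hnint _ _ (hp k) (hpp k)).mul_const _) fun x hx => ?_
      refine mul_le_mul_of_nonneg_left ?_ (h0 x)
      exact Real.rpow_le_rpow_of_nonpos hk0 hx.1 (by linarith)
    rw [intervalIntegral.integral_mul_const, pow_succ, mul_comm ((2:ℝ) ^ k) 2] at e1
    refine e1.trans ((mul_le_mul_of_nonneg_right hk (Real.rpow_nonneg hk0.le _)).trans (le_of_eq ?_))
    rw [← Real.rpow_add hk0, hr, ← Real.rpow_natCast (2:ℝ) k, ← Real.rpow_mul (by norm_num),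
      ← Real.rpow_natCast _ k, ← Real.rpow_mul (by norm_num)]
    congr 1; ring
  have hsum : Summable t :=
    (summable_geometric_of_lt_one hr0 hr1).of_norm_bounded_eventually_nat htr
  have hb2 : Tendsto (fun k : ℕ => (2:ℝ) ^ k) atTop atTop := tendsto_pow_atTop_atTop_of_one_lt (by norm_num)
  refine integrableOn_Ioi_of_intervalIntegral_norm_bounded (∑' k, t k) 1 (b := fun i : ℕ => (2:ℝ) ^ i)
    (l := atTop) (fun i => ?_) hb2 (Eventually.of_forall fun i => ?_)
  · rw [← intervalIntegrable_iff_integrableOn_Ioc_of_le (hp i)]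
    exact hint 1 _ le_rfl (hp i)
  · have e1 : ∫ x in (1:ℝ)..(2:ℝ) ^ i, ‖F x‖ = ∫ x in (1:ℝ)..(2:ℝ) ^ i, F x := by
      refine intervalIntegral.integral_congr fun x hx => ?_
      rw [uIcc_of_le (hp i)] at hx
      exact Real.norm_of_nonneg (hF0 x hx.1)
    have e2 : ∑ k ∈ Finset.range i, t k = ∫ x in (1:ℝ)..(2:ℝ) ^ i, F x := by
      have := intervalIntegral.sum_integral_adjacent_intervals (f := F) (μ := volume)
        (a := fun k : ℕ => (2:ℝ) ^ k) (n := i) (fun k _ => hint _ _ (hp k) (hpp k))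
      simpa using this
    rw [e1, ← e2]
    exact hsum.sum_le_tsum _ fun k _ => ht0 k

theorem exp_image : Real.exp '' (Ioi 0) = Ioi 1 := by
  ext t
  constructor
  · rintro ⟨u, hu, rfl⟩
    exact Real.one_lt_exp_iff.2 hu
  · intro ht
    have ht0 : (0:ℝ) < t := lt_trans zero_lt_one ht
    exact ⟨Real.log t, Real.log_pos ht, Real.exp_log ht0⟩

theorem dyadic_LInt {n : ℝ → ℝ} (hm : Measurable n) (h0 : ∀ x, 0 ≤ n x) (h1 : ∀ x, 1 ≤ x → n x ≤ x) {y : ℝ}
    (hy : 0 < y)
    (h : ∀ ε : ℝ, 0 < ε → ∀ᶠ X : ℝ in atTop, ∫ x in X..(2 * X), n x ≤ X ^ (1 + y + ε)) :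
    ∀ w > y, LInt (fun u => n (Real.exp u)) w := by
  intro w hw
  have h2 := dyadic hm h0 h1 (b := (y + w) / 2) (w := w) (by linarith) (by linarith) (by
    have := h ((w - y) / 2) (by linarith)
    filter_upwards [this] with X hX
    refine hX.trans (le_of_eq ?_)
    congr 1; ring)
  rw [← exp_image, integrableOn_image_iff_integrableOn_abs_deriv_smul measurableSet_Ioi
    (fun u _ => (Real.hasDerivAt_exp u).hasDerivWithinAt) Real.exp_injective.injOn] at h2
  unfold LInt
  refine h2.congr (Eventually.of_forall fun u => ?_)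
  simp only [smul_eq_mul]
  rw [abs_of_pos (Real.exp_pos u), Real.rpow_def_of_pos (Real.exp_pos u), Real.log_exp]
  have e : Real.exp (-(w * u)) = Real.exp u * Real.exp (u * -(w + 1)) := by
    rw [← Real.exp_add]; congr 1; ring
  rw [e]; ring

variable (q : ℕ) [NeZero q]

/-- `ψ(x; q, 1)` -/
noncomputable def psi1 (x : ℝ) : ℝ := ∑ k ∈ Finset.Icc 1 ⌊x⌋₊, residueClass (1 : ZMod q) k

theorem psi1_meas : Measurable (psi1 q) := by
  have h1 : Measurable fun n : ℕ => ∑ k ∈ Finset.Icc 1 n, residueClass (1 : ZMod q) k :=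
    measurable_from_top
  exact h1.comp Nat.measurable_floor

theorem psi1_nonneg (x : ℝ) : 0 ≤ psi1 q x := sum_nonneg q _

/-- the negative part of the error -/
noncomputable def neg1 (x : ℝ) : ℝ := max (x / q.totient - psi1 q x) 0

theorem neg1_meas : Measurable (neg1 q) := ((by fun_prop : Measurable fun x : ℝ => x / (q.totient : ℝ)).sub
  (psi1_meas q)).max measurable_const

theorem tot_ge : (1:ℝ) ≤ q.totient := by exact_mod_cast Nat.totient_pos.2 (NeZero.pos q)

theorem neg1_le {x : ℝ} (hx : 1 ≤ x) : neg1 q x ≤ x := by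
  have h1 := psi1_nonneg q x
  have h2 : x / q.totient ≤ x := div_le_self (by linarith) (tot_ge q)
  exact max_le (by linarith) (by linarith)

/-- **One-sided bound in mean for the class 1.** -/
theorem one_sided_mean {y : ℝ} (hy : 0 < y) (hy1 : y ≤ 1)
    (h : ∀ ε : ℝ, 0 < ε → ∀ᶠ X : ℝ in atTop, ∫ x in X..(2 * X), neg1 q x ≤ X ^ (1 + y + ε))
    {χ : DirichletCharacter ℂ q} {s : ℂ} (hs : y < s.re) (h1 : s ≠ 1 ∨ χ ≠ 1) : LFunction χ s ≠ 0 := by
  set φ : ℝ := (q.totient : ℝ) with hφ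
  have hφ0 : 0 < φ := by rw [hφ]; exact_mod_cast Nat.totient_pos.2 (NeZero.pos q)
  set N : ℝ → ℝ := fun u => neg1 q (Real.exp u) with hN
  have hNm : Measurable N := (neg1_meas q).comp Real.measurable_exp
  have hNL : ∀ w > y, LInt N w :=
    dyadic_LInt (neg1_meas q) (fun x => le_max_right _ _) (fun x hx => neg1_le q hx) hy h
  set f : ℝ → ℝ := fun u => AA q u - φ⁻¹ * Real.exp (1 * u) + N u with hf
  have hfm : Measurable f := ((AA_meas q).sub (by fun_prop)).add hNm
  have hf0 : ∀ u, 0 < u → 0 ≤ f u := by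
    intro u hu
    have h2 : Real.exp u / φ - psi1 q (Real.exp u) ≤ N u := le_max_left _ _
    have h3 : AA q u = psi1 q (Real.exp u) := rfl
    rw [hf]
    simp only
    rw [one_mul, inv_mul_eq_div, h3]
    linarith
  have hL : ∀ w > 1, LInt f w := fun w hw =>
    ((AA_LInt q hw).sub ((exp_LInt hw).const_mul _)).add (hNL w (by linarith))
  have hlap : ∀ s : ℂ, 1 < s.re → lapC f s = lapC (AA q) s - φ⁻¹ * (1 / (s - 1)) + lapC N s := by
    intro s hs
    have i1 := LInt.complex (AA_meas q) (z := s) (AA_LInt q hs)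
    have i2 := LInt.complex (f := fun u => Real.exp (1 * u)) (by fun_prop) (z := s) (exp_LInt hs)
    have i3 := LInt.complex hNm (z := s) (hNL _ (by linarith))
    have l1 := lapC_exp (b := 1) hs
    rw [Complex.ofReal_one] at l1
    rw [← l1]
    have i12 : IntegrableOn (fun u : ℝ => ((AA q u : ℝ) : ℂ) * cexp (-(s * u)) -
        ((φ⁻¹ : ℝ) : ℂ) * (((Real.exp (1 * u) : ℝ) : ℂ) * cexp (-(s * u)))) (Ioi 0) := i1.sub (i2.const_mul _)
    have j1 : ∫ u in Ioi (0:ℝ), (((AA q u : ℝ) : ℂ) * cexp (-(s * u)) -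
        ((φ⁻¹ : ℝ) : ℂ) * (((Real.exp (1 * u) : ℝ) : ℂ) * cexp (-(s * u)))) =
        lapC (AA q) s - ((φ⁻¹ : ℝ) : ℂ) * lapC (fun u => Real.exp (1 * u)) s := by
      unfold lapC
      rw [integral_sub i1 (i2.const_mul _), integral_const_mul]
    rw [← j1]
    unfold lapC
    rw [← integral_add i12 i3]
    congr 1
    funext u
    rw [hf]
    push_cast
    ring
  set h' : ℂ → ℂ := fun s => -1 + φ * s * lapC N s with hh
  have hhd : ∀ s : ℂ, y < s.re → DifferentiableAt ℂ h' s := by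
    intro s hs
    have h3 : DifferentiableAt ℂ (lapC N) s := lapC_differentiableAt hNm hNL hs
    rw [hh]
    exact DifferentiableAt.add (by fun_prop)
      (DifferentiableAt.mul (by fun_prop : DifferentiableAt ℂ (fun s : ℂ => (φ : ℂ) * s) s) h3)
  have heq : ∀ s : ℂ, 1 < s.re → deriv (PP q) s / PP q s = h' s - φ * s * lapC f s := by
    intro s hs
    have hs1 : s - 1 ≠ 0 := by
      intro h4
      have := congrArg Complex.re h4
      simp at this
      linarith
    have hφc : (φ : ℂ) ≠ 0 := by exact_mod_cast hφ0.ne'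
    have e1 := ArithmeticFunction.vonMangoldt.eqOn_LFunctionResidueClassAux (q := q) (a := 1) isUnit_one
      (show s ∈ {s : ℂ | 1 < s.re} from hs)
    simp only at e1
    have e2 := lapC_AA q hs
    have e3 : (q.totient : ℂ) = (φ : ℂ) := by rw [hφ]; push_cast; rfl
    rw [PP_logder q hs, e1, hlap s hs, hh, e3, Complex.ofReal_inv]
    simp only
    rw [← e2]
    field_simp
    ring
  have key := core (PP_diff q) hfm hf0 hy hy1 hφ0 hhd hL (fun s hs => PP_ne q hs) heq s hs
  intro h0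
  exact key (PP_zero q h1 h0)

end Pool.Agent.R429.OS
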